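import Pool.Agent.W880.UF2.Wild

/-!
# Tame inertia in a finite group is cyclic
-/

set_option autoImplicit false

namespace Pool.Agent.Helper8K9.WM

open NumberField Pool.Agent.W258.FM Pool.Agent.W880.UF2

section general

variable {R : Type*} [CommRing R] [IsDedekindDomain R] {G : Type*} [Group G]
  [MulSemiringAction G R] [FaithfulSMul G R]

omit [IsDedekindDomain R] [FaithfulSMul G R] in
lemma rel_mul {P : Ideal R} {π : R} (hπ : π ∈ P) {x y : G} (hx : Iner P x)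
    {u v : R} (hu : x • π - u * π ∈ P ^ 2) (hv : y • π - v * π ∈ P ^ 2) :
    (x * y) • π - (u * v) * π ∈ P ^ 2 := by
  have e : (x * y) • π - (u * v) * π =
      x • (y • π - v * π) + (x • v - v) * (x • π) + v * (x • π - u * π) := by
    rw [mul_smul, smul_sub, smul_mul']; ring
  rw [e]
  refine Ideal.add_mem _ (Ideal.add_mem _ (smul_pow_mem hx.mem 2 _ hv) ?_)
    (Ideal.mul_mem_left _ _ hu)
  rw [pow_two]
  exact Ideal.mul_mem_mul (hx _) (hx.mem π hπ)

/-- an inertia element which acts trivially on `P / P ^ 2` has order a power of `l` -/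
theorem wild_of_triv [Finite G] {P : Ideal R} (hP : P.IsMaximal) {l : ℕ}
    (hlp : l.Prime) (hlP : (l : R) ∈ P) {w : G} (hwI : Iner P w)
    (hwt : ∀ y ∈ P, w • y - y ∈ P ^ 2) : ∃ a : ℕ, w ^ (l ^ a) = 1 := by
  obtain ⟨a, M, hM, hord⟩ := Nat.exists_eq_pow_mul_and_not_dvd
    (show orderOf w ≠ 0 from (orderOf_pos w).ne') l hlp.ne_one
  refine ⟨a, ?_⟩
  have hMP : (M : R) ∉ P := by
    intro h
    have hco : Nat.Coprime M l := ((Nat.Prime.coprime_iff_not_dvd hlp).2 hM).symm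
    have hb := Nat.gcd_eq_gcd_ab M l
    rw [hco] at hb
    apply hP.ne_top
    rw [Ideal.eq_top_iff_one]
    have e : (1 : R) = (M : R) * ((M.gcdA l : ℤ) : R) + (l : R) * ((M.gcdB l : ℤ) : R) := by
      have := congrArg (fun z : ℤ => (z : R)) hb
      push_cast at this
      exact this
    rw [e]
    exact Ideal.add_mem _ (Ideal.mul_mem_right _ _ h) (Ideal.mul_mem_right _ _ hlP)
  refine key hP hMP ?_ (hwI.pow _) (pow_triv hwI hwt _)
  rw [← pow_mul, ← hord]
  exact pow_orderOf_eq_one w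

/-- two elements of a finite inertia group are powers of one element, up to elements of order a
power of the residue characteristic -/
theorem cyc_fin [Finite G] {P : Ideal R} (hP : P.IsMaximal) (h0 : P ≠ ⊥) {l : ℕ}
    (hlp : l.Prime) (hlP : (l : R) ∈ P) [Finite (R ⧸ P)]
    {x y : G} (hx : Iner P x) (hy : Iner P y) :
    ∃ m n i j a b : ℕ, (x * ((x ^ m * y ^ n) ^ i)⁻¹) ^ (l ^ a) = 1 ∧
      (y * ((x ^ m * y ^ n) ^ j)⁻¹) ^ (l ^ b) = 1 := by
  classical
  obtain ⟨π, hπ, hπ2, hsp⟩ := exists_unif hP.isPrime h0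
  let _ : Field (R ⧸ P) := Ideal.Quotient.field P
  -- the value of the tame character
  have hval : ∀ z : G, Iner P z → ∃ u : R, z • π - u * π ∈ P ^ 2 := fun z hz =>
    hsp (z • π) (hz.mem π hπ)
  have hne : ∀ z : G, Iner P z → ∀ u : R, z • π - u * π ∈ P ^ 2 → u ∉ P := by
    intro z hz u hu huP
    have h1 : z • π ∈ P ^ 2 := by
      have h2 : z • π = (z • π - u * π) + u * π := by ring
      rw [h2]
      refine Ideal.add_mem _ hu ?_
      rw [pow_two]
      exact Ideal.mul_mem_mul huP hπ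
    have h2 : z⁻¹ • (z • π) ∈ P ^ 2 := smul_pow_mem hz.inv.mem 2 _ h1
    rw [inv_smul_smul] at h2
    exact hπ2 h2
  have huniq : ∀ z : G, ∀ u v : R, z • π - u * π ∈ P ^ 2 → z • π - v * π ∈ P ^ 2 →
      u - v ∈ P := by
    intro z u v hu hv
    by_contra huv
    have h1 : (u - v) * π ∈ P ^ (1 + 1) := by
      have h2 : (u - v) * π = (z • π - v * π) - (z • π - u * π) := by ring
      rw [h2]
      exact Ideal.sub_mem _ hv hu
    exact hπ2 (unit_mod hP huv (by simpa using hπ) h1)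
  have hpow : ∀ z : G, Iner P z → ∀ u : R, z • π - u * π ∈ P ^ 2 → ∀ n : ℕ,
      (z ^ n) • π - u ^ n * π ∈ P ^ 2 := by
    intro z hz u hu n
    induction n with
    | zero => simp
    | succ n ih =>
      have h1 := rel_mul hπ (hz.pow n) ih hu
      rwa [← pow_succ, ← pow_succ] at h1
  obtain ⟨u, hu⟩ := hval x hx
  obtain ⟨v, hv⟩ := hval y hy
  have hub : (Ideal.Quotient.mk P u) ≠ 0 := fun h => hne x hx u hu (Ideal.Quotient.eq_zero_iff_mem.1 h)
  have hvb : (Ideal.Quotient.mk P v) ≠ 0 := fun h => hne y hy v hv (Ideal.Quotient.eq_zero_iff_mem.1 h)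
  set U : (R ⧸ P)ˣ := Units.mk0 _ hub with hU
  set V : (R ⧸ P)ˣ := Units.mk0 _ hvb with hV
  have hfinU : Finite (R ⧸ P)ˣ := inferInstance
  obtain ⟨⟨g, hg⟩, hgen⟩ := (inferInstance : IsCyclic (Subgroup.closure {U, V})).exists_generator
  obtain ⟨m', n', hmn⟩ := Subgroup.mem_closure_pair.1 hg
  -- natural exponents
  have hnat : ∀ (z : (R ⧸ P)ˣ) (k : ℤ), ∃ r : ℕ, z ^ r = z ^ k := by
    intro z k
    refine ⟨(k % (orderOf z : ℤ)).toNat, ?_⟩
    have h1 : (0 : ℤ) ≤ k % (orderOf z : ℤ) :=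
      Int.emod_nonneg _ (by exact_mod_cast (orderOf_pos z).ne')
    rw [← zpow_natCast, Int.toNat_of_nonneg h1, zpow_mod_orderOf]
  obtain ⟨m, hm⟩ := hnat U m'
  obtain ⟨n, hn⟩ := hnat V n'
  have hgUV : U ^ m * V ^ n = g := by rw [hm, hn, hmn]
  have hUg : ∃ i : ℕ, U = g ^ i := by
    obtain ⟨k, hk⟩ := Subgroup.mem_zpowers_iff.1 (hgen ⟨U, Subgroup.subset_closure (by simp)⟩)
    obtain ⟨r, hr⟩ := hnat g k
    refine ⟨r, ?_⟩
    rw [hr]
    exact (congrArg Subtype.val hk).symm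
  have hVg : ∃ j : ℕ, V = g ^ j := by
    obtain ⟨k, hk⟩ := Subgroup.mem_zpowers_iff.1 (hgen ⟨V, Subgroup.subset_closure (by simp)⟩)
    obtain ⟨r, hr⟩ := hnat g k
    refine ⟨r, ?_⟩
    rw [hr]
    exact (congrArg Subtype.val hk).symm
  obtain ⟨i, hi⟩ := hUg
  obtain ⟨j, hj⟩ := hVg
  set z : G := x ^ m * y ^ n with hz
  have hzI : Iner P z := (hx.pow m).mul (hy.pow n)
  have hzrel : z • π - (u ^ m * v ^ n) * π ∈ P ^ 2 :=
    rel_mul hπ (hx.pow m) (hpow x hx u hu m) (hpow y hy v hv n)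
  -- an element with the character of a power of `z`
  have hfin : ∀ (t : G), Iner P t → ∀ s : R, t • π - s * π ∈ P ^ 2 → ∀ k : ℕ,
      s - (u ^ m * v ^ n) ^ k ∈ P → ∃ a : ℕ, (t * (z ^ k)⁻¹) ^ (l ^ a) = 1 := by
    intro t ht s hs k hsk
    have hzk : (z ^ k) • π - (u ^ m * v ^ n) ^ k * π ∈ P ^ 2 := hpow z hzI _ hzrel k
    have htk : t • π - (u ^ m * v ^ n) ^ k * π ∈ P ^ 2 := by
      have e : t • π - (u ^ m * v ^ n) ^ k * π =
          (t • π - s * π) + (s - (u ^ m * v ^ n) ^ k) * π := by ring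
      rw [e]
      refine Ideal.add_mem _ hs ?_
      rw [pow_two]
      exact Ideal.mul_mem_mul hsk hπ
    refine wild_of_triv hP hlp hlP (ht.mul (hzI.pow k).inv) ?_
    intro y' hy'
    have hy'' := (hzI.pow k).inv.mem y' hy'
    have hA := mult_all hπ hsp ht htk _ hy''
    have hB := mult_all hπ hsp (hzI.pow k) hzk _ hy''
    have e : (t * (z ^ k)⁻¹) • y' - y' =
        (t • ((z ^ k)⁻¹ • y') - (u ^ m * v ^ n) ^ k * ((z ^ k)⁻¹ • y')) -
        ((z ^ k) • ((z ^ k)⁻¹ • y') - (u ^ m * v ^ n) ^ k * ((z ^ k)⁻¹ • y')) := by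
      rw [mul_smul, smul_inv_smul]; ring
    rw [e]
    exact Ideal.sub_mem _ hA hB
  have hmk : ∀ k : ℕ, ((g ^ k : (R ⧸ P)ˣ) : R ⧸ P) = Ideal.Quotient.mk P ((u ^ m * v ^ n) ^ k) := by
    intro k
    rw [← hgUV]
    push_cast
    rw [hU, hV, Units.val_mk0, Units.val_mk0, map_pow, map_mul, map_pow, map_pow]
  obtain ⟨a, ha⟩ := hfin x hx u hu i (by
    rw [← Ideal.Quotient.eq_zero_iff_mem, map_sub, ← hmk, ← hi, hU, Units.val_mk0, sub_self])
  obtain ⟨b, hb⟩ := hfin y hy v hv j (by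
    rw [← Ideal.Quotient.eq_zero_iff_mem, map_sub, ← hmk, ← hj, hV, Units.val_mk0, sub_self])
  exact ⟨m, n, i, j, a, b, ha, hb⟩

end general

end Pool.Agent.Helper8K9.WM
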