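import Pool.Agent.Helper3K9.EW.Lin
import Pool.Agent.Helper3K9.EW.Logn

/-!
# The monodromy-weight property, linear algebra
-/

set_option autoImplicit false

namespace Pool.Agent.Helper8K9.WM

open Polynomial Module Matrix
open Pool.Agent.Helper3K9.EW

variable {n : ℕ}

/-- the logarithm of a unipotent matrix -/
noncomputable def ulog (T : Matrix (Fin n) (Fin n) ℂ) : Matrix (Fin n) (Fin n) ℂ :=
  ∑ k ∈ Finset.range n, ((-1 : ℂ) ^ k / ((k : ℂ) + 1)) • (T - 1) ^ (k + 1)

/-- the generalized eigenspace -/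
noncomputable def geig (A : Matrix (Fin n) (Fin n) ℂ) (z : ℂ) : Submodule ℂ (Fin n → ℂ) :=
  Module.End.maxGenEigenspace (toLin' A : Module.End ℂ (Fin n → ℂ)) z

/-- the monodromy-weight property -/
structure MWOp (A N : Matrix (Fin n) (Fin n) ℂ) (Q : ℕ) (w : ℤ) : Prop where
  wt : ∀ z : ℂ, A.charpoly.IsRoot z → ∃ j : ℤ, ‖z‖ ^ 2 = (Q : ℝ) ^ j
  bij : ∀ (z : ℂ) (s : ℕ), ‖z‖ ^ 2 = (Q : ℝ) ^ (w + s) →
    Set.BijOn (fun x => N ^ s *ᵥ x) (geig A z : Set (Fin n → ℂ)) (geig A (z / (Q : ℂ) ^ s))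

theorem finrank_geig (A : Matrix (Fin n) (Fin n) ℂ) (z : ℂ) :
    finrank ℂ (geig A z) = A.charpoly.roots.count z := by
  rw [geig, LinL.finrank_gen, Matrix.charpoly_toLin']

theorem mem_geig {A : Matrix (Fin n) (Fin n) ℂ} {z : ℂ} {x : Fin n → ℂ} (h : A *ᵥ x = z • x) :
    x ∈ geig A z := by
  rw [geig, Module.End.mem_maxGenEigenspace]
  exact ⟨1, by
    rw [pow_one, LinearMap.sub_apply, LinearMap.smul_apply, Module.End.one_apply,
      Matrix.toLin'_apply, h, sub_self]⟩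

theorem isRoot_of_eig {A : Matrix (Fin n) (Fin n) ℂ} {z : ℂ} {x : Fin n → ℂ} (hx : x ≠ 0)
    (h : A *ᵥ x = z • x) : A.charpoly.IsRoot z := by
  have h1 : Module.End.HasEigenvalue (toLin' A) z := by
    refine Module.End.hasEigenvalue_of_hasEigenvector (x := x) ⟨?_, hx⟩
    rw [Module.End.mem_eigenspace_iff, Matrix.toLin'_apply, h]
  rw [Module.End.hasEigenvalue_iff_isRoot_charpoly, Matrix.charpoly_toLin'] at h1
  exact h1

namespace MWOp

variable {A N : Matrix (Fin n) (Fin n) ℂ} {Q : ℕ} {w : ℤ}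

theorem cond (h : MWOp A N Q w) (z : ℂ) (x : Fin n → ℂ) (i : ℕ) (hx : x ≠ 0)
    (hz : A *ᵥ x = z • x) (hN : (N ^ (i + 1)) *ᵥ x = 0) :
    ∃ j : ℤ, j ≤ w + i ∧ ‖z‖ ^ 2 = (Q : ℝ) ^ j := by
  obtain ⟨j, hj⟩ := h.wt z (isRoot_of_eig hx hz)
  refine ⟨j, ?_, hj⟩
  by_contra hcon
  obtain ⟨s, hs⟩ : ∃ s : ℕ, j = w + s := ⟨(j - w).toNat, by omega⟩
  have hb := h.bij z s (by rw [hj, hs])
  have h3 : N ^ s *ᵥ x = 0 := by
    rw [show s = (s - (i + 1)) + (i + 1) by omega, pow_add, ← Matrix.mulVec_mulVec, hN,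
      Matrix.mulVec_zero]
  exact hx (hb.injOn (mem_geig hz) (Submodule.zero_mem _) (by
    show N ^ s *ᵥ x = N ^ s *ᵥ 0
    rw [h3, Matrix.mulVec_zero]))

theorem count_eq (h : MWOp A N Q w) (z : ℂ) (s : ℕ) (hz : ‖z‖ ^ 2 = (Q : ℝ) ^ (w + s)) :
    A.charpoly.roots.count z = A.charpoly.roots.count (z / (Q : ℂ) ^ s) := by
  have hb := h.bij z s hz
  rw [← finrank_geig, ← finrank_geig]
  let f : geig A z →ₗ[ℂ] geig A (z / (Q : ℂ) ^ s) :=
    (toLin' (N ^ s)).restrict (fun x hx => by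
      rw [Matrix.toLin'_apply]
      exact hb.mapsTo hx)
  have hf : ∀ x : geig A z, ((f x : geig A (z / (Q : ℂ) ^ s)) : Fin n → ℂ) = N ^ s *ᵥ (x : Fin n → ℂ) :=
    fun x => rfl
  refine LinearEquiv.finrank_eq (LinearEquiv.ofBijective f ⟨?_, ?_⟩)
  · intro x y hxy
    have h1 := congrArg Subtype.val hxy
    rw [hf, hf] at h1
    exact Subtype.ext (hb.injOn x.2 y.2 h1)
  · rintro ⟨y, hy⟩
    obtain ⟨x, hx, hxy⟩ := hb.surjOn hy
    exact ⟨⟨x, hx⟩, Subtype.ext hxy⟩

theorem det (h2 : 2 ≤ Q) (h : MWOp A N Q w) : ‖A.det‖ ^ 2 = (Q : ℝ) ^ (w * n) := by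
  classical
  have hQ := LinL.Qr Q h2
  have hQc : (Q : ℂ) ≠ 0 := by
    have : Q ≠ 0 := by omega
    exact_mod_cast this
  set r := A.charpoly.roots with hr
  have hrt : ∀ z ∈ r, ‖z‖ ^ 2 = (Q : ℝ) ^ (LinL.J Q z) := by
    intro z hz
    obtain ⟨j, hj⟩ := h.wt z (Polynomial.isRoot_of_mem_roots hz)
    rw [LinL.J_of Q h2 z j hj, hj]
  -- the reflection preserves multiplicities
  have hcount : ∀ z ∈ r, r.count (LinL.iot Q w z) = r.count z := by
    intro z hz
    have h1 := hrt z hz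
    rcases le_total w (LinL.J Q z) with hle | hle
    · obtain ⟨s, hs⟩ : ∃ s : ℕ, LinL.J Q z = w + s := ⟨(LinL.J Q z - w).toNat, by omega⟩
      have h3 := h.count_eq z s (by rw [h1, hs])
      have h4 : LinL.iot Q w z = z / (Q : ℂ) ^ s := by
        rw [LinL.iot, hs, div_eq_mul_inv, ← zpow_natCast, ← _root_.zpow_neg]
        congr 2
        ring
      rw [h4, ← h3]
    · obtain ⟨s, hs⟩ : ∃ s : ℕ, LinL.J Q z = w - s := ⟨(w - LinL.J Q z).toNat, by omega⟩
      have h5 : ‖LinL.iot Q w z‖ ^ 2 = (Q : ℝ) ^ (w + s) := by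
        rw [LinL.norm_iot Q w h2 z h1, hs]
        congr 1
        ring
      have h3 := h.count_eq (LinL.iot Q w z) s h5
      have h4 : LinL.iot Q w z / (Q : ℂ) ^ s = z := by
        rw [LinL.iot, hs, div_eq_mul_inv, ← zpow_natCast, ← _root_.zpow_neg, mul_assoc, ← zpow_add₀ hQc]
        have : w - (w - (s : ℤ)) + -(s : ℤ) = 0 := by ring
        rw [this, zpow_zero, mul_one]
      rw [h3, h4]
  have hsum : (r.map fun z => LinL.J Q z - w).sum = 0 := by
    rw [Finset.sum_multiset_map_count]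
    refine Finset.sum_involution (fun z _ => LinL.iot Q w z) ?_ ?_ ?_ ?_
    · intro z hz
      rw [Multiset.mem_toFinset] at hz
      rw [hcount z hz, LinL.J_iot Q w h2 z (hrt z hz), nsmul_eq_mul, nsmul_eq_mul]
      ring
    · intro z hz hne heq
      rw [Multiset.mem_toFinset] at hz
      apply hne
      have h3 := LinL.J_iot Q w h2 z (hrt z hz)
      rw [heq] at h3
      rw [show LinL.J Q z - w = 0 by omega, smul_zero]
    · intro z hz
      rw [Multiset.mem_toFinset] at hz ⊢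
      rw [← Multiset.count_pos, hcount z hz, Multiset.count_pos]
      exact hz
    · intro z hz
      rw [Multiset.mem_toFinset] at hz
      exact LinL.iot_iot Q w h2 z (hrt z hz)
  have h1 := norm_prod Q h2 r hrt
  have h4 : Multiset.card r = n := by
    have := (IsAlgClosed.splits A.charpoly).natDegree_eq_card_roots
    rw [hr, ← this, Matrix.charpoly_natDegree_eq_dim, Fintype.card_fin]
  rw [Multiset.sum_map_sub, Multiset.map_const', Multiset.sum_replicate, h4, nsmul_eq_mul,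
    sub_eq_zero] at hsum
  rw [Matrix.det_eq_prod_roots_charpoly, ← hr, h1, hsum, mul_comm]

theorem of (h2 : 2 ≤ Q) (hN : IsNilpotent N) (hc : N * A = (Q : ℂ) • (A * N))
    (hi : ∀ (z : ℂ) (x : Fin n → ℂ) (i : ℕ), x ≠ 0 → A *ᵥ x = z • x → (N ^ (i + 1)) *ᵥ x = 0 →
      ∃ j : ℤ, j ≤ w + i ∧ ‖z‖ ^ 2 = (Q : ℝ) ^ j)
    (hdet : ‖A.det‖ ^ 2 = (Q : ℝ) ^ (w * n)) : MWOp A N Q w := by
  classical
  obtain ⟨hc', hi', hr, hd⟩ := LinL.prep n A N Q w h2 hN hc hi hdet
  set a : Module.End ℂ (Fin n → ℂ) := Matrix.toLin' A with ha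
  set ν : Module.End ℂ (Fin n → ℂ) := Matrix.toLin' N with hν
  have hpow : ∀ k x, (ν ^ k) x = (N ^ k) *ᵥ x := by
    intro k x
    rw [hν, ← Matrix.toLin'_pow, Matrix.toLin'_apply]
  have hQc : (Q : ℂ) ≠ 0 := LinL.Qc a ν Q w h2 hc' hi'
  have hch : a.charpoly = A.charpoly := Matrix.charpoly_toLin' A
  refine ⟨?_, ?_⟩
  · intro z hz
    refine ⟨LinL.J Q z, hr z ?_⟩
    rw [hch]
    exact (Polynomial.mem_roots A.charpoly_monic.ne_zero).2 hz
  · intro z s hz
    rcases Nat.eq_zero_or_pos s with rfl | hs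
    · rw [show z / (Q : ℂ) ^ 0 = z by rw [pow_zero, div_one]]
      have h0 : (fun x : Fin n → ℂ => N ^ 0 *ᵥ x) = id := by
        funext x
        rw [pow_zero, Matrix.one_mulVec]
        rfl
      rw [h0]
      exact Set.bijOn_id _
    obtain ⟨s', rfl⟩ : ∃ s', s = s' + 1 := ⟨s - 1, by omega⟩
    have hz1 : ‖z‖ ^ 2 = (Q : ℝ) ^ (w + s' + 1) := by
      rw [hz]
      congr 1
      push_cast
      ring
    set z' := z / (Q : ℂ) ^ (s' + 1) with hz'
    have hzz : z' * (Q : ℂ) ^ (s' + 1) = z := div_mul_cancel₀ _ (pow_ne_zero _ hQc)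
    refine ⟨?_, ?_, ?_⟩
    · intro x hx
      show N ^ (s' + 1) *ᵥ x ∈ geig A z'
      rw [← hpow]
      exact LinL.map_gen a ν Q hQc hc' (s' + 1) z z' hzz x hx
    · intro x hx y hy hxy
      have h3 := LinL.inj a ν Q w h2 hc' hi' z s' hz1 (x - y) (Submodule.sub_mem _ hx hy) (by
        rw [map_sub, hpow, hpow, sub_eq_zero]
        exact hxy)
      exact sub_eq_zero.1 h3
    · intro y hy
      by_cases hy0 : y = 0
      · refine ⟨0, Submodule.zero_mem _, ?_⟩
        show N ^ (s' + 1) *ᵥ 0 = y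
        rw [hy0, Matrix.mulVec_zero]
      have hzr : z' ∈ a.charpoly.roots := by
        rw [← Multiset.count_pos, ← LinL.finrank_gen, Module.finrank_pos_iff_exists_ne_zero]
        exact ⟨⟨y, hy⟩, fun h => hy0 (congrArg Subtype.val h)⟩
      have hn' : ‖z'‖ ^ 2 = (Q : ℝ) ^ (w - (s' + 1 : ℕ)) := by
        have h3 : z' = z * (Q : ℂ) ^ (-((s' + 1 : ℕ) : ℤ)) := by
          rw [hz', div_eq_mul_inv, _root_.zpow_neg, zpow_natCast]
        rw [h3, LinL.norm_zp Q h2 z _ _ hz]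
        congr 1
        push_cast
        ring
      have hle : ∀ (z z' : ℂ) (s : ℕ), ‖z‖ ^ 2 = (Q : ℝ) ^ (w + s + 1) →
          z' * (Q : ℂ) ^ (s + 1) = z → a.charpoly.roots.count z ≤ a.charpoly.roots.count z' := by
        intro z z' s hz hz'
        rw [← LinL.finrank_gen, ← LinL.finrank_gen]
        exact LinL.le_dim a ν Q w h2 hc' hi' z z' s hz hz'
      have hJ := LinL.J_of Q h2 z' _ hn'
      have hcnt := LinL.counting Q w h2 a.charpoly.roots hr hd hle z' hzr (by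
        push_cast at hJ
        omega)
      have hio : LinL.iot Q w z' = z := by
        rw [LinL.iot, hJ]
        have : w - (w - ((s' + 1 : ℕ) : ℤ)) = ((s' + 1 : ℕ) : ℤ) := by ring
        rw [this, zpow_natCast, hzz]
      obtain ⟨x, hx, hxy⟩ := LinL.surj a ν Q w h2 hc' hi' z z' s' hz1 hzz
        (by rw [LinL.finrank_gen, LinL.finrank_gen, hcnt, hio]) y hy
      exact ⟨x, hx, by show (N ^ (s' + 1)) *ᵥ x = y; rw [← hpow]; exact hxy⟩

end MWOp

/-! ### the logarithm -/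

theorem descPochhammer_coeff_one (j : ℕ) :
    (descPochhammer ℂ (j + 1)).coeff 1 = (-1 : ℂ) ^ j * (j.factorial : ℂ) := by
  induction j with
  | zero => simp
  | succ j ih =>
    rw [descPochhammer_succ_right, mul_sub, coeff_sub, coeff_mul_X, mul_comm _ ((((j + 1 : ℕ)) : ℂ[X])),
      ← C_eq_natCast, coeff_C_mul, ih]
    have h0 : (descPochhammer ℂ (j + 1)).coeff 0 = 0 := by
      rw [descPochhammer_succ_left, mul_coeff_zero, coeff_X_zero, zero_mul]
    rw [h0, Nat.factorial_succ]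
    push_cast
    ring

theorem B_coeff (j : ℕ) : (LognL.B (j + 1)).coeff 1 = (-1 : ℂ) ^ j / ((j : ℂ) + 1) := by
  rw [LognL.B, coeff_C_mul, descPochhammer_coeff_one, Nat.factorial_succ]
  have h1 : (j.factorial : ℂ) ≠ 0 := by exact_mod_cast j.factorial_ne_zero
  have h2 : ((j : ℂ) + 1) ≠ 0 := by exact_mod_cast Nat.succ_ne_zero j
  push_cast
  field_simp


theorem pow_eq_zero' {A : Matrix (Fin n) (Fin n) ℂ} (h : IsNilpotent A) : A ^ n = 0 := by
  have h1 : IsNilpotent (toLin' A) := by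
    obtain ⟨k, hk⟩ := h
    refine ⟨k, ?_⟩
    rw [← toLin'_pow, hk, map_zero]
  have h2 := h1.charpoly_eq_X_pow_finrank
  have h3 := LinearMap.aeval_self_charpoly (toLin' A)
  rw [h2, map_pow, Polynomial.aeval_X, Module.finrank_fin_fun, ← toLin'_pow] at h3
  exact (LinearEquiv.map_eq_zero_iff _).1 h3

open LognL in
/-- the logarithm of a unipotent matrix -/
theorem ulog_spec (T Y Y' : Matrix (Fin n) (Fin n) ℂ) (Q : ℕ) (hT : IsNilpotent (T - 1))
    (hY : Y * Y' = 1) (hY' : Y' * Y = 1) (hr : Y * T * Y' = T ^ Q) :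
    ∃ u u' : Matrix (Fin n) (Fin n) ℂ, ulog T = (T - 1) * u ∧ u * u' = 1 ∧ u' * u = 1 ∧
      Commute T u ∧ Y * ulog T * Y' = (Q : ℂ) • ulog T := by
  have hk := pow_eq_zero' hT
  set M := T - 1 with hM
  have hTM : T = 1 + M := by rw [hM]; abel
  set u : Matrix (Fin n) (Fin n) ℂ := ∑ j ∈ Finset.range (n + 1), (B (j + 1)).coeff 1 • M ^ j with hu
  have hk1 : M ^ (n + 2) = 0 := pow_eq_zero_of_le (by omega) hk
  have hMu : M * u = ∑ j ∈ Finset.range (n + 2), (B j).coeff 1 • M ^ j := by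
    rw [Finset.sum_range_succ', B_zero, zero_smul, add_zero, hu, Finset.mul_sum]
    refine Finset.sum_congr rfl fun j _ => ?_
    rw [mul_smul_comm, ← pow_succ']
  have hlog : ulog T = M * u := by
    rw [hMu, Finset.sum_range_succ', B_zero, zero_smul, add_zero, Finset.sum_range_succ,
      pow_eq_zero_of_le (by omega) hk, smul_zero, add_zero, ulog]
    refine Finset.sum_congr rfl fun j _ => ?_
    rw [B_coeff]
  have hcom : Commute M u := by
    rw [hu]
    refine Commute.sum_right _ _ _ fun j _ => ?_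
    exact ((Commute.refl M).pow_right j).smul_right _
  have hunit : IsUnit u := by
    rw [hu, Finset.sum_range_succ', B_one, one_smul, pow_zero, add_comm]
    have h1 : ∑ j ∈ Finset.range n, (B (j + 1 + 1)).coeff 1 • M ^ (j + 1) =
        M * ∑ j ∈ Finset.range n, (B (j + 1 + 1)).coeff 1 • M ^ j := by
      rw [Finset.mul_sum]
      refine Finset.sum_congr rfl fun j _ => ?_
      rw [mul_smul_comm, ← pow_succ']
    rw [h1]
    refine IsNilpotent.isUnit_one_add ?_
    refine Commute.isNilpotent_mul_right (h_comm := ?_) hT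
    refine Commute.sum_right _ _ _ fun j _ => ?_
    exact ((Commute.refl M).pow_right j).smul_right _
  obtain ⟨U, hU⟩ := hunit
  refine ⟨u, (U⁻¹ : (Matrix (Fin n) (Fin n) ℂ)ˣ), hlog, by rw [← hU]; exact U.mul_inv,
    by rw [← hU]; exact U.inv_mul, ?_, ?_⟩
  · rw [hTM]
    exact (Commute.one_left u).add_left hcom
  · -- comparison of the linear coefficients
    have hconj : ∀ m : ℕ, Y * T ^ m * Y' = T ^ (Q * m) := by
      intro m
      rw [pow_mul, ← hr]
      induction m with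
      | zero => rw [pow_zero, mul_one, hY, pow_zero]
      | succ m ih =>
        rw [pow_succ, pow_succ, ← ih]
        calc Y * (T ^ m * T) * Y' = Y * T ^ m * (Y' * Y) * T * Y' := by
              rw [hY', mul_one]; noncomm_ring
          _ = _ := by noncomm_ring
    rw [hlog, hMu]
    ext a b
    set F : ℂ[X] := ∑ j ∈ Finset.range (n + 2), (C ((Y * M ^ j * Y') a b) * B j -
      C ((M ^ j) a b) * (B j).comp (C (Q : ℂ) * X)) with hF
    have hF0 : F = 0 := by
      refine Polynomial.eq_zero_of_infinite_isRoot F ?_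
      refine Set.Infinite.mono ?_ (Set.infinite_range_of_injective (Nat.cast_injective (R := ℂ)))
      rintro _ ⟨m, rfl⟩
      show F.IsRoot (m : ℂ)
      have h1 := congrFun (congrFun (hconj m) a) b
      rw [hTM, pow_eq M (n + 2) hk1 m, pow_eq M (n + 2) hk1 (Q * m)] at h1
      rw [Polynomial.IsRoot, hF, eval_finsetSum]
      simp only [eval_sub, eval_mul, eval_C, eval_comp, eval_X, B_eval]
      have h2 : ∀ j, eval ((Q : ℂ) * (m : ℂ)) (B j) = ((Q * m).choose j : ℂ) := by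
        intro j
        rw [← B_eval j (Q * m)]
        push_cast
        rfl
      simp only [h2]
      rw [Finset.sum_sub_distrib, sub_eq_zero]
      rw [Finset.mul_sum, Finset.sum_mul, Matrix.sum_apply, Matrix.sum_apply] at h1
      simp only [mul_smul_comm, smul_mul_assoc, Matrix.smul_apply, smul_eq_mul] at h1
      simp only [mul_comm _ ((Nat.choose _ _ : ℕ) : ℂ)]
      exact h1
    have h1 : F.coeff 1 = 0 := by rw [hF0, coeff_zero]
    rw [hF, finsetSum_coeff] at h1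
    simp only [coeff_sub, coeff_C_mul, comp_C_mul_X_coeff, pow_one] at h1
    rw [Finset.sum_sub_distrib, sub_eq_zero] at h1
    rw [Finset.mul_sum, Finset.sum_mul, Matrix.sum_apply, Matrix.smul_apply, Matrix.sum_apply]
    simp only [mul_smul_comm, smul_mul_assoc, Matrix.smul_apply, smul_eq_mul]
    rw [Finset.mul_sum]
    calc _ = ∑ j ∈ Finset.range (n + 2), (Y * M ^ j * Y') a b * (B j).coeff 1 :=
          Finset.sum_congr rfl fun j _ => by ring
      _ = _ := h1
      _ = _ := Finset.sum_congr rfl fun j _ => by ring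

/-- without the relation -/
theorem ulog_spec' (T : Matrix (Fin n) (Fin n) ℂ) (hT : IsNilpotent (T - 1)) :
    ∃ u u' : Matrix (Fin n) (Fin n) ℂ, ulog T = (T - 1) * u ∧ u * u' = 1 ∧ u' * u = 1 ∧
      Commute T u := by
  obtain ⟨u, u', h1, h2, h3, h4, -⟩ := ulog_spec T 1 1 1 hT (one_mul 1) (one_mul 1) (by
    rw [one_mul, mul_one, pow_one])
  exact ⟨u, u', h1, h2, h3, h4⟩

end Pool.Agent.Helper8K9.WM
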