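import Pool.Agent.Helper3K9.EW.Wmv

/-!
# Closeness and the weight-monodromy condition for one prime `ℓ`
-/

set_option autoImplicit false

namespace Pool.Agent.Helper8K9.WM

open NumberField Filter Topology IsDedekindDomain Matrix Polynomial
open Pool.Agent.W569.FM Pool.Agent.W401.Cheb Pool.Agent.R401.Img Pool.Agent.R401.Sup3
open Pool.Agent.R401.Tr5 Pool.Agent.R401.Tr9 Pool.Agent.R401.Tr3 Pool.Agent.R401.Sup
open Pool.Agent.Helper3K9.EW Pool.Agent.Helper3K9.EW.WmvL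

variable {K : Type} [Field K] [NumberField K] {ℓ : ℕ} [Fact ℓ.Prime] {n m : ℕ}

/-- the traces are close, for one `ℓ` -/
def Close1 (V : GK K →* GL (Fin n) ℚ_[ℓ]) (W : GK K →* GL (Fin m) ℚ_[ℓ]) (w : ℤ) : Prop :=
  ∃ (u : ℤ) (φ : GK K → ℚ) (U : Subgroup (GK K)), (w = 2 * u ∨ ∀ y, φ y = 0) ∧ U.Normal ∧
    IsOpen (U : Set (GK K)) ∧ (∀ x ∈ U, ∀ y, φ (x * y) = φ y) ∧
    ∀ y : GK K, cyc K ℓ ℚ_[ℓ] y ^ u * ((mt V y).trace - (mt W y).trace) = (φ y : ℚ_[ℓ])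

/-- the weight-monodromy condition for one `ℓ` -/
def WMone (ρ : GK K →* GL (Fin n) ℚ_[ℓ]) (w : ℤ) (P : Ideal (OO K)) (q : ℕ) : Prop :=
  ∀ (e : ℚ_[ℓ] →+* ℂ) (k : ℕ) (g : GK K), 0 < k →
    FrobAt (q ^ k) P g → ∀ (z : ℂ) (x : Fin n → ℂ) (i : ℕ), x ≠ 0 →
      (mt ρ g⁻¹).map e *ᵥ x = z • x →
      (∀ τ, InInertia P τ → IsNilpotent (mt ρ τ - 1) →
        (((mt ρ τ).map e - 1) ^ (i + 1)) *ᵥ x = 0) →
      ∃ j : ℤ, j ≤ w + i ∧ ‖z‖ ^ 2 = ((q : ℝ) ^ k) ^ j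

theorem close1 (V : GK K →* GL (Fin n) ℚ_[ℓ]) (hV : Continuous V)
    (W : GK K →* GL (Fin m) ℚ_[ℓ]) (hW : Continuous W)
    (B : Set (HeightOneSpectrum (𝓞 K))) (hB : B.Finite) (a : HeightOneSpectrum (𝓞 K) → ℚ) (w : ℤ)
    (htr : ∀ v, v ∉ B → (ℓ : 𝓞 K) ∉ v.asIdeal → ∀ g, IsFrob v g →
      (mt V g⁻¹).trace - (mt W g⁻¹).trace = (a v : ℚ_[ℓ]))
    (C : ℝ) (hC : ∀ v, v ∉ B → (a v : ℝ) ^ 2 ≤ C * (Ideal.absNorm v.asIdeal : ℝ) ^ w) (θ : ℝ)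
    (hθ : θ * (n ^ 2 + m ^ 2) < 1) {d : ℕ} (hd : 0 < d)
    (hP : ∃ᶠ N : ℕ in atTop, dens (fun v : HeightOneSpectrum (𝓞 K) =>
      ¬ ∃ c : ℤ, (d : ℚ) * a v ^ 2 = (Ideal.absNorm v.asIdeal : ℚ) ^ w * c) N ≤ θ) :
    Close1 V W w := by
  classical
  by_cases hne : ∃ g : GK K, (mt V g).trace - (mt W g).trace ≠ 0
  swap
  · push Not at hne
    refine ⟨0, fun _ => 0, ⊤, Or.inr fun _ => rfl, inferInstance, isOpen_univ,
      fun _ _ _ => rfl, fun y => ?_⟩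
    rw [hne y, mul_zero, Rat.cast_zero]
  obtain ⟨g₀, hg₀⟩ := hne
  obtain ⟨⟨u, hu⟩, hU'⟩ := Pool.Agent.R401.Tr7.one V hV W hW hg₀ B hB a w (Rat.castHom ℚ_[ℓ])
      (fun v hv hℓv g hg => htr v hv hℓv g hg) C hC θ hθ hd hP
  obtain ⟨U, hUn, hUo, hU⟩ := hU' u hu
  have hφ : ∀ y : GK K, ∃ r : ℚ,
      cyc K ℓ ℚ_[ℓ] y ^ u * ((mt V y).trace - (mt W y).trace) = (r : ℚ_[ℓ]) := by
    intro y
    obtain ⟨v, hv, γ, hγ, hyγ⟩ := Pool.Agent.R401.Tr2.exists_frob U hUo y⁻¹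
      (S := B ∪ {v | ((ℓ : ℕ) : 𝓞 K) ∈ v.asIdeal})
      (hB.union (Pool.Agent.W352.ChAbs.over_le ℓ (Fact.out : ℓ.Prime)).1)
    rw [Set.mem_union, not_or] at hv
    rw [inv_inv] at hyγ
    have hy : y = (y * γ) * γ⁻¹ := by rw [mul_inv_cancel_right]
    refine ⟨((Ideal.absNorm v.asIdeal : ℚ) ^ u)⁻¹ * a v, ?_⟩
    have h := hU _ hyγ γ⁻¹
    rw [← hy] at h
    rw [h, htr v hv.1 hv.2 γ hγ, c_inv, cyc_frob ℓ ℚ_[ℓ] hv.2 hγ, _root_.inv_zpow]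
    push_cast
    rfl
  choose φ hφ using hφ
  refine ⟨u, φ, U, Or.inl hu, hUn, hUo, ?_, hφ⟩
  intro x hx y
  have h1 := hU x hx y
  rw [hφ, hφ] at h1
  exact_mod_cast h1

theorem wmv_one (hE : S_EMB) (V : GK K →* GL (Fin n) ℚ_[ℓ]) (W : GK K →* GL (Fin m) ℚ_[ℓ])
    (w : ℤ) (hcl : Close1 V W w) (hss : SS W) (P : Ideal (OO K)) (hP : P.IsMaximal)
    (hℓ : (ℓ : OO K) ∉ P) (q : ℕ) (hq : 2 ≤ q) (hW : WMone W w P q) : WMone V w P q := by
  intro e k g hk hg z x i hx hz hτ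
  obtain ⟨u, φ, U, hw, hUn, hUo, hU, hφ⟩ := hcl
  have hfin : Finite (GK K ⧸ U) := Subgroup.quotient_finite_of_isOpen _ hUo
  have hfi : U.FiniteIndex := Subgroup.finiteIndex_of_finite_quotient
  have hR : 0 < U.index := Nat.pos_of_ne_zero hfi.index_ne_zero
  have hmem : ∀ y : GK K, y ^ U.index ∈ U := fun y => Subgroup.pow_index_mem U y
  have hc : cyc K ℓ ℚ_[ℓ] g = ((q ^ k : ℕ) : ℚ_[ℓ]) := cyc_sigma (ℓ := ℓ) hP hg hℓ
  have hφ1 : (φ 1 : ℚ_[ℓ]) = n - m := phi_one V W u φ hφ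
  have hφU : ∀ y ∈ U, φ y = φ 1 := fun y hy => by rw [← mul_one y, hU y hy]
  let χ : GK K →* ℚ_[ℓ] :=
    { toFun := fun y => cyc K ℓ ℚ_[ℓ] y ^ (-u)
      map_one' := by rw [map_one, _root_.one_zpow]
      map_mul' := fun a b => by rw [map_mul, _root_.mul_zpow] }
  have hχ : ∀ y, χ y = cyc K ℓ ℚ_[ℓ] y ^ (-u) := fun y => rfl
  have htr : ∀ y ∈ U, (mt V y).trace = (mt W y).trace + χ y * ((n : ℚ_[ℓ]) - m) := by
    intro y hy
    have h1 := hφ y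
    rw [hφU y hy, hφ1] at h1
    have h2 : cyc K ℓ ℚ_[ℓ] y ^ (-u) * cyc K ℓ ℚ_[ℓ] y ^ u = 1 := by
      rw [← zpow_add₀ (c_ne _ _), neg_add_cancel, _root_.zpow_zero]
    rw [hχ, ← h1, ← mul_assoc, h2, one_mul]
    ring
  have hq0 : (0 : ℝ) < (q : ℝ) := by
    have : 0 < q := by omega
    exact_mod_cast this
  -- the eigenvalue of `g⁻¹ ^ R`
  have hpow : ∀ {r : ℕ} (ρ : GK K →* GL (Fin r) ℚ_[ℓ]) (y : GK K) (j : ℕ),
      (mt ρ (y ^ j)).map e = ((mt ρ y).map e) ^ j := by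
    intro r ρ y j
    rw [mt_pow, ← RingHom.mapMatrix_apply, ← RingHom.mapMatrix_apply, map_pow]
  have hz1 : (mt V (g⁻¹ ^ U.index)).map e *ᵥ x = z ^ U.index • x := by
    rw [hpow]
    exact mulVec_pow hz _
  have hroot : ∀ j : ℤ, ‖z ^ U.index‖ ^ 2 = ((q : ℝ) ^ (k * U.index)) ^ j →
      ‖z‖ ^ 2 = ((q : ℝ) ^ k) ^ j := by
    intro j hj
    refine (pow_left_inj₀ (by positivity) (by positivity) hR.ne').1 ?_
    rw [← pow_mul, mul_comm 2, pow_mul, ← norm_pow, hj, pow_mul, ← zpow_natCast (((q : ℝ) ^ k) ^ j),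
      ← zpow_natCast ((q : ℝ) ^ k) U.index, _root_.zpow_comm]
  rcases hE (GK K) U ℚ_[ℓ] n m V W χ hss htr ℂ e x hx with ⟨y, hy, hyf⟩ | ⟨hnm, hf⟩
  · -- first case
    have h1 : (mt W (g⁻¹ ^ U.index)).map e *ᵥ y = z ^ U.index • y :=
      (aeval_X_sub _ _ _).1 (hyf _ (hmem _) _ ((aeval_X_sub _ _ _).2 hz1))
    have h2 : FrobAt (q ^ (k * U.index)) P (g ^ U.index) := by
      rw [pow_mul]
      exact frobAt_pow hg _
    obtain ⟨j, hj, hj2⟩ := hW e (k * U.index) (g ^ U.index) (Nat.mul_pos hk hR) h2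
      (z ^ U.index) y i hy (by rwa [inv_pow] at h1) (by
        intro τ' hτ' hun
        -- `τ = τ' ^ R`
        have h3 : InInertia P (τ' ^ U.index) := (IG P).pow_mem (show τ' ∈ IG P from hτ') _
        have h4 : IsNilpotent (mt V (τ' ^ U.index) - 1) := by
          apply nilp_of_trace
          intro j
          have h5 : InInertia P ((τ' ^ U.index) ^ j) :=
            (IG P).pow_mem (show τ' ^ U.index ∈ IG P from h3) j
          have h6 := htr ((τ' ^ U.index) ^ j) (U.pow_mem (hmem τ') j)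
          have h7 : (mt W ((τ' ^ U.index) ^ j)).trace = m := by
            rw [mt_pow, mt_pow]
            exact trace_unip (unip_pow (unip_pow hun _) _)
          rw [hχ, cyc_inertia hP hℓ hg h5, _root_.one_zpow, one_mul, h7, mt_pow] at h6
          rw [h6]
          ring
        have h8 := hτ (τ' ^ U.index) h3 h4
        have h9 := hyf _ (hmem τ') ((X - 1) ^ (i + 1)) (by rw [aeval_pow]; exact h8)
        rw [aeval_pow, hpow] at h9
        refine ker_of_pow ?_ hR h9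
        have h10 := hun.map e.mapMatrix
        rwa [map_sub, map_one, RingHom.mapMatrix_apply] at h10)
    exact ⟨j, hj, hroot j hj2⟩
  · -- second case
    have h1 := hf (g⁻¹ ^ U.index) (hmem _) _ ((aeval_X_sub _ _ _).2 hz1)
    rw [eval_sub, eval_X, eval_C, sub_eq_zero, hχ, map_pow, c_inv, hc] at h1
    have hw2 : w = 2 * u := by
      rcases hw with hw | hw
      · exact hw
      · exfalso
        rw [hw, Rat.cast_zero] at hφ1
        apply hnm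
        have h2 : (n : ℚ_[ℓ]) = m := by linear_combination -hφ1
        exact_mod_cast h2
    refine ⟨w, by omega, hroot w ?_⟩
    rw [← h1, map_zpow₀, map_pow, map_inv₀, map_natCast, norm_zpow, norm_pow, norm_inv,
      Complex.norm_natCast, hw2]
    push_cast
    rw [pow_mul, inv_pow, _root_.inv_zpow', neg_neg, ← zpow_natCast _ 2, ← _root_.zpow_mul, mul_comm u]
    rfl

end Pool.Agent.Helper8K9.WM
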