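import Pool.Agent.Helper8K9.WM.Loc
import Pool.Agent.Helper8K9.WM.One
import Pool.Agent.Helper3K9.EW.Chp

/-!
# The monodromy-weight property of a representation which is close to another one
-/

set_option autoImplicit false

namespace Pool.Agent.Helper8K9.WM

open NumberField Filter Topology IsDedekindDomain Matrix Polynomial
open Pool.Agent.W569.FM Pool.Agent.W401.Cheb Pool.Agent.R401.Img Pool.Agent.R401.Sup3
open Pool.Agent.Helper3K9.EW

theorem arithR {Q : ℝ} (hQ : 0 < Q) {M : ℕ} (hM : 0 < M) {u w : ℤ} {n m : ℕ} {b c : ℝ}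
    (hb : 0 ≤ b) (hc : c = Q ^ (w * m)) (hw : w = 2 * u ∨ n = m)
    (h : b ^ M * (((Q ^ u) ^ M) ^ 2) ^ m = (((Q ^ u) ^ M) ^ 2) ^ n * c ^ M) :
    b = Q ^ (w * n) := by
  set D : ℝ := ((Q ^ u) ^ M) ^ 2 with hD
  have hD0 : 0 < D := by positivity
  rcases hw with hw | hw
  · have hDE : D = (Q ^ w) ^ M := by
      rw [hD, hw, ← pow_mul, mul_comm M 2, pow_mul, ← zpow_natCast (Q ^ u) 2, ← _root_.zpow_mul]
      congr 2
      push_cast
      ring
    have h2 : (b * Q ^ (w * m)) ^ M = (Q ^ (w * n) * Q ^ (w * m)) ^ M := by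
      have h3 : ∀ r : ℕ, D ^ r = (Q ^ (w * r)) ^ M := by
        intro r
        rw [hDE, ← pow_mul, mul_comm M r, pow_mul, ← zpow_natCast (Q ^ w) r, ← _root_.zpow_mul]
      rw [h3, h3, hc] at h
      rw [mul_pow, mul_pow, h]
    have h4 := (pow_left_inj₀ (by positivity) (by positivity) hM.ne').1 h2
    exact mul_right_cancel₀ (by positivity) h4
  · subst hw
    have h2 : b ^ M = c ^ M := by
      have h3 : b ^ M * D ^ n = c ^ M * D ^ n := by rw [h, mul_comm]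
      exact mul_right_cancel₀ (by positivity) h3
    rw [(pow_left_inj₀ hb (by rw [hc]; positivity) hM.ne').1 h2, hc]

variable {K : Type} [Field K] [NumberField K] {ℓ : ℕ} [Fact ℓ.Prime] {n m : ℕ}

/-- the monodromy-weight property -/
def MW (ρ : GK K →* GL (Fin n) ℚ_[ℓ]) (w : ℤ) (P : Ideal (OO K)) (q : ℕ) : Prop :=
  ∃ τ, InInertia P τ ∧ IsNilpotent (mt ρ τ - 1) ∧ ∀ (k : ℕ) (g : GK K), 0 < k →
    FrobAt (q ^ k) P g → ∀ e : ℚ_[ℓ] →+* ℂ,
      MWOp ((mt ρ g⁻¹).map e) (ulog ((mt ρ τ).map e)) (q ^ k) w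

theorem map_unip {A : Matrix (Fin n) (Fin n) ℚ_[ℓ]} (h : IsNilpotent (A - 1)) (e : ℚ_[ℓ] →+* ℂ) :
    IsNilpotent (A.map e - 1) := by
  have h10 := h.map e.mapMatrix
  rwa [map_sub, map_one, RingHom.mapMatrix_apply] at h10

theorem MW.wmone {ρ : GK K →* GL (Fin n) ℚ_[ℓ]} {w : ℤ} {P : Ideal (OO K)} {q : ℕ}
    (h : MW ρ w P q) : WMone ρ w P q := by
  intro e k g hk hg z x i hx hz hτ
  obtain ⟨τ, hτI, hτu, hop⟩ := h
  obtain ⟨u, u', hN, huu, huu', hcomm⟩ := ulog_spec' _ (map_unip hτu e)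
  have hcomm1 : Commute ((mt ρ τ).map e - 1) u := hcomm.sub_left (Commute.one_left u)
  obtain ⟨j, hj, hz2⟩ := (hop k g hk hg e).cond z x i hx hz (by
    rw [hN, hcomm1.eq, hcomm1.symm.mul_pow, ← Matrix.mulVec_mulVec, hτ τ hτI hτu,
      Matrix.mulVec_zero])
  refine ⟨j, hj, ?_⟩
  rw [hz2]
  push_cast
  rfl

theorem det_close (V : GK K →* GL (Fin n) ℚ_[ℓ]) (W : GK K →* GL (Fin m) ℚ_[ℓ]) (w : ℤ)
    (hcl : Close1 V W w) (P : Ideal (OO K)) (hP : P.IsMaximal) (hℓ : (ℓ : OO K) ∉ P) {Q : ℕ}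
    (hQ : 2 ≤ Q) {g : GK K} (hg : FrobAt Q P g) (e : ℚ_[ℓ] →+* ℂ)
    (hW : ‖((mt W g⁻¹).map e).det‖ ^ 2 = (Q : ℝ) ^ (w * m)) :
    ‖((mt V g⁻¹).map e).det‖ ^ 2 = (Q : ℝ) ^ (w * n) := by
  obtain ⟨u, φ, U, hw, hUn, hUo, hU, hφ⟩ := hcl
  have hfin : Finite (GK K ⧸ U) := Subgroup.quotient_finite_of_isOpen _ hUo
  have hfi : U.FiniteIndex := Subgroup.finiteIndex_of_finite_quotient
  have hM : 0 < U.index := Nat.pos_of_ne_zero hfi.index_ne_zero
  have h1 := ChpL.det_rel V W u φ hφ hP hℓ hg U hU (Subgroup.pow_index_mem U g⁻¹)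
  have hdet : ∀ {r : ℕ} (A : Matrix (Fin r) (Fin r) ℚ_[ℓ]), (A.map e).det = e A.det := by
    intro r A
    rw [RingHom.map_det, RingHom.mapMatrix_apply]
  have hQ0 : (0 : ℝ) < (Q : ℝ) := by
    have : 0 < Q := by omega
    exact_mod_cast this
  have hnm : w = 2 * u ∨ n = m := by
    rcases hw with hw | hw
    · exact Or.inl hw
    · right
      have h4 := Pool.Agent.R401.Tr9.phi_one V W u φ hφ
      rw [hw, Rat.cast_zero] at h4
      exact_mod_cast (sub_eq_zero.1 h4.symm)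
  refine arithR (u := u) (m := m) (c := ‖((mt W g⁻¹).map e).det‖ ^ 2) hQ0 hM (by positivity) hW
    hnm ?_
  have h5 := congrArg (fun x => ‖e x‖ ^ 2) h1
  simp only [map_mul, map_pow, map_zpow₀, map_natCast, norm_mul, norm_pow, norm_zpow,
    Complex.norm_natCast, mul_pow] at h5
  rw [hdet, hdet]
  have e1 : ∀ (a : ℝ) (s : ℕ), (a ^ s) ^ 2 = (a ^ 2) ^ s := fun a s => by
    rw [← pow_mul, mul_comm, pow_mul]
  rw [e1 _ U.index, e1 (((Q : ℝ) ^ u) ^ U.index) m, e1 (((Q : ℝ) ^ u) ^ U.index) n,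
    e1 ‖e (mt W g⁻¹).det‖ U.index] at h5
  exact h5

/-- **The monodromy-weight property is inherited by close representations.** -/
theorem mw_of_close (hE : S_EMB) (hGEN : Pool.Agent.Helper3K9.EW.S_GEN) (V : GK K →* GL (Fin n) ℚ_[ℓ])
    (hV : Continuous V) (W : GK K →* GL (Fin m) ℚ_[ℓ]) (w : ℤ) (hcl : Close1 V W w)
    (hss : SS W) (P : Ideal (OO K)) (hP : P.IsMaximal) (hℓ : (ℓ : OO K) ∉ P) (q : ℕ)
    (hq : 2 ≤ q) (σ : GK K) (hσ : FrobAt q P σ) (hW : MW W w P q) : MW V w P q := by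
  have hVone : WMone V w P q := wmv_one hE V W w hcl hss P hP hℓ q hq hW.wmone
  obtain ⟨τ₀, hI, hu, hrel, hmin⟩ := hGEN K ℓ n V hV P hP hℓ q σ hq hσ
  refine ⟨τ₀, hI, hu, ?_⟩
  intro k g hk hg e
  have hqk : 2 ≤ q ^ k := le_trans hq (Nat.le_self_pow hk.ne' q)
  set T : Matrix (Fin n) (Fin n) ℚ_[ℓ] := mt V τ₀ with hT
  let em : Matrix (Fin n) (Fin n) ℚ_[ℓ] →+* Matrix (Fin n) (Fin n) ℂ := e.mapMatrix
  have hone : mt V (1 : GK K) = 1 := Pool.Agent.R401.Tr9.mt_one V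
  have hYY : mt V g * mt V g⁻¹ = 1 := by rw [← mt_mul, mul_inv_cancel, hone]
  have hYY' : mt V g⁻¹ * mt V g = 1 := by rw [← mt_mul, inv_mul_cancel, hone]
  have hrel' : mt V g * T * mt V g⁻¹ = T ^ (q ^ k) := by
    rw [hT, ← mt_mul, ← mt_mul]
    exact hrel (q ^ k) g (by omega) hg
  set Y := em (mt V g) with hY
  set A := em (mt V g⁻¹) with hA
  set Tc := em T with hTc
  have c1 : Y * A = 1 := by rw [hY, hA, ← map_mul, hYY, map_one]
  have c2 : A * Y = 1 := by rw [hY, hA, ← map_mul, hYY', map_one]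
  have c3 : Y * Tc * A = Tc ^ (q ^ k) := by
    rw [hY, hA, hTc, ← map_mul, ← map_mul, hrel', map_pow]
  have c4 : IsNilpotent (Tc - 1) := map_unip hu e
  obtain ⟨u, u', hN, huu, huu', hcomm, hscale⟩ := ulog_spec Tc Y A (q ^ k) c4 c1 c2 c3
  have hcomm1 : Commute (Tc - 1) u := hcomm.sub_left (Commute.one_left u)
  have hN' : ulog Tc = u * (Tc - 1) := by rw [hN]; exact hcomm1.eq
  have hNil : IsNilpotent (ulog Tc) := by
    rw [hN]
    exact hcomm1.isNilpotent_mul_right c4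
  have hNA : ulog Tc * A = ((q ^ k : ℕ) : ℂ) • (A * ulog Tc) := by
    have h3 : A * (Y * ulog Tc * A) = ulog Tc * A := by
      rw [← mul_assoc, ← mul_assoc, c2, one_mul]
    rw [← h3, hscale, mul_smul_comm]
  have hcu : Commute u u' := by
    show u * u' = u' * u
    rw [huu, huu']
  have hpowN : ∀ i : ℕ, (Tc - 1) ^ i = u' ^ i * ulog Tc ^ i := by
    intro i
    rw [hN', hcomm1.symm.mul_pow, ← mul_assoc, ← hcu.symm.mul_pow, huu', one_pow, one_mul]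
  refine MWOp.of hqk hNil hNA ?_ (det_close V W w hcl P hP hℓ hqk hg e ?_)
  · intro z x i hx hAx hNx
    have hNx' : ulog Tc ^ (i + 1) *ᵥ x = 0 := hNx
    have h3 : (Tc - 1) ^ (i + 1) *ᵥ x = 0 := by
      rw [hpowN, ← Matrix.mulVec_mulVec, hNx', Matrix.mulVec_zero]
    obtain ⟨j, hj, hz⟩ := hVone e k g hk hg z x i hx hAx (by
      intro τ hτ hτu
      obtain ⟨R, hR⟩ := hmin τ hτ hτu (i + 1)
      have h4 : ((mt V τ).map e - 1) ^ (i + 1) = em R * (Tc - 1) ^ (i + 1) := by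
        have h5 := congrArg em hR
        rw [map_mul, map_pow, map_pow, map_sub, map_sub, map_one] at h5
        exact h5
      rw [h4, ← Matrix.mulVec_mulVec, h3, Matrix.mulVec_zero])
    refine ⟨j, hj, ?_⟩
    rw [hz]
    push_cast
    rfl
  · obtain ⟨τ, -, -, hop⟩ := hW
    exact (hop k g hk hg e).det hqk

end Pool.Agent.Helper8K9.WM
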