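import Pool.Agent.Helper8K9.WM.Main

/-!
# A common generator of the tame inertia group for two representations
-/

set_option autoImplicit false

namespace Pool.Agent.Helper8K9.WM

open NumberField Filter Topology IsDedekindDomain Matrix Polynomial
open Pool.Agent.W569.FM Pool.Agent.W401.Cheb Pool.Agent.R401.Img Pool.Agent.R401.Sup3
open Pool.Agent.R401.Tr5
open Pool.Agent.Helper3K9.EW

variable {K : Type} [Field K] [NumberField K] {ℓ : ℕ} [Fact ℓ.Prime] {n m : ℕ}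

/-- the matrices of the direct sum -/
noncomputable def blk (V : GK K →* GL (Fin n) ℚ_[ℓ]) (W : GK K →* GL (Fin m) ℚ_[ℓ]) :
    GK K →* Matrix (Fin (n + m)) (Fin (n + m)) ℚ_[ℓ] where
  toFun g := Matrix.reindexAlgEquiv ℚ_[ℓ] ℚ_[ℓ] finSumFinEquiv (fromBlocks (mt V g) 0 0 (mt W g))
  map_one' := by
    rw [Pool.Agent.R401.Tr9.mt_one, Pool.Agent.R401.Tr9.mt_one, fromBlocks_one, map_one]
  map_mul' a b := by
    rw [← map_mul, fromBlocks_multiply, mt_mul, mt_mul, Matrix.mul_zero, Matrix.zero_mul,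
      Matrix.mul_zero, Matrix.zero_mul, Matrix.zero_mul, Matrix.mul_zero, add_zero, add_zero,
      zero_add, zero_add]

/-- the direct sum -/
noncomputable def dsum (V : GK K →* GL (Fin n) ℚ_[ℓ]) (W : GK K →* GL (Fin m) ℚ_[ℓ]) :
    GK K →* GL (Fin (n + m)) ℚ_[ℓ] := (blk V W).toHomUnits

theorem mt_dsum (V : GK K →* GL (Fin n) ℚ_[ℓ]) (W : GK K →* GL (Fin m) ℚ_[ℓ]) (g : GK K) :
    mt (dsum V W) g =
      Matrix.reindexAlgEquiv ℚ_[ℓ] ℚ_[ℓ] finSumFinEquiv (fromBlocks (mt V g) 0 0 (mt W g)) := rfl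

theorem continuous_blk {V : GK K →* GL (Fin n) ℚ_[ℓ]} (hV : Continuous V)
    {W : GK K →* GL (Fin m) ℚ_[ℓ]} (hW : Continuous W) : Continuous (blk V W) := by
  have h1 : Continuous fun g => fromBlocks (mt V g) 0 0 (mt W g) :=
    Continuous.matrix_fromBlocks (Pool.Agent.R401.Sup.continuous_mt V hV) continuous_const
      continuous_const (Pool.Agent.R401.Sup.continuous_mt W hW)
  exact h1.matrix_reindex _ _

theorem continuous_dsum {V : GK K →* GL (Fin n) ℚ_[ℓ]} (hV : Continuous V)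
    {W : GK K →* GL (Fin m) ℚ_[ℓ]} (hW : Continuous W) : Continuous (dsum V W) := by
  rw [Units.continuous_iff]
  refine ⟨continuous_blk hV hW, ?_⟩
  exact (continuous_blk hV hW).comp continuous_inv

theorem block_pow (A : Matrix (Fin n) (Fin n) ℚ_[ℓ]) (B : Matrix (Fin m) (Fin m) ℚ_[ℓ]) (k : ℕ) :
    (fromBlocks A 0 0 B - 1) ^ k = fromBlocks ((A - 1) ^ k) 0 0 ((B - 1) ^ k) := by
  have h1 : fromBlocks A 0 0 B - 1 = fromBlocks (A - 1) 0 0 (B - 1) := by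
    rw [← fromBlocks_one, sub_eq_add_neg, fromBlocks_neg, fromBlocks_add, neg_zero, neg_zero,
      add_zero, add_zero, ← sub_eq_add_neg, ← sub_eq_add_neg]
  rw [h1, fromBlocks_diagonal_pow]

theorem unip_dsum (V : GK K →* GL (Fin n) ℚ_[ℓ]) (W : GK K →* GL (Fin m) ℚ_[ℓ]) (g : GK K) :
    IsNilpotent (mt (dsum V W) g - 1) ↔
      IsNilpotent (mt V g - 1) ∧ IsNilpotent (mt W g - 1) := by
  set Φ := Matrix.reindexAlgEquiv ℚ_[ℓ] ℚ_[ℓ] (finSumFinEquiv : Fin n ⊕ Fin m ≃ Fin (n + m))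
  have h1 : mt (dsum V W) g - 1 = Φ (fromBlocks (mt V g) 0 0 (mt W g) - 1) := by
    rw [map_sub, map_one, mt_dsum]
  rw [h1]
  constructor
  · rintro ⟨k, hk⟩
    rw [← map_pow, map_eq_zero_iff _ Φ.injective, block_pow] at hk
    have h2 := congrArg toBlocks₁₁ hk
    have h3 := congrArg toBlocks₂₂ hk
    rw [toBlocks_fromBlocks₁₁] at h2
    rw [toBlocks_fromBlocks₂₂] at h3
    exact ⟨⟨k, h2⟩, ⟨k, h3⟩⟩
  · rintro ⟨⟨k, hk⟩, ⟨l, hl⟩⟩
    refine ⟨k + l, ?_⟩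
    rw [← map_pow, block_pow, pow_add, pow_add, hk, hl, zero_mul, mul_zero, fromBlocks_zero,
      map_zero]

theorem fac_dsum (V : GK K →* GL (Fin n) ℚ_[ℓ]) (W : GK K →* GL (Fin m) ℚ_[ℓ]) (g h : GK K)
    (k : ℕ) (R : Matrix (Fin (n + m)) (Fin (n + m)) ℚ_[ℓ])
    (hR : (mt (dsum V W) g - 1) ^ k = R * (mt (dsum V W) h - 1) ^ k) :
    (∃ R, (mt V g - 1) ^ k = R * (mt V h - 1) ^ k) ∧
      ∃ R, (mt W g - 1) ^ k = R * (mt W h - 1) ^ k := by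
  set Φ := Matrix.reindexAlgEquiv ℚ_[ℓ] ℚ_[ℓ] (finSumFinEquiv : Fin n ⊕ Fin m ≃ Fin (n + m))
  have h1 : ∀ g, (mt (dsum V W) g - 1) ^ k =
      Φ (fromBlocks ((mt V g - 1) ^ k) 0 0 ((mt W g - 1) ^ k)) := by
    intro g
    rw [← block_pow, map_pow, map_sub, map_one, mt_dsum]
  rw [h1, h1] at hR
  obtain ⟨S, rfl⟩ := Φ.surjective R
  rw [← map_mul] at hR
  have h2 := Φ.injective hR
  rw [← fromBlocks_toBlocks S, fromBlocks_multiply] at h2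
  simp only [Matrix.mul_zero, add_zero, zero_add] at h2
  have h3 := congrArg toBlocks₁₁ h2
  have h4 := congrArg toBlocks₂₂ h2
  rw [toBlocks_fromBlocks₁₁, toBlocks_fromBlocks₁₁] at h3
  rw [toBlocks_fromBlocks₂₂, toBlocks_fromBlocks₂₂] at h4
  exact ⟨⟨_, h3⟩, ⟨_, h4⟩⟩

/-- `τ₀` is a generator of the tame inertia group, as far as `ρ` is concerned -/
structure IsGen (ρ : GK K →* GL (Fin n) ℚ_[ℓ]) (P : Ideal (OO K)) (τ₀ : GK K) : Prop where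
  unip : IsNilpotent (mt ρ τ₀ - 1)
  rel : ∀ (Q : ℕ) (g : GK K), 1 ≤ Q → FrobAt Q P g → mt ρ (g * τ₀ * g⁻¹) = mt ρ τ₀ ^ Q
  dom : ∀ τ, InInertia P τ → IsNilpotent (mt ρ τ - 1) → ∀ (e : ℚ_[ℓ] →+* ℂ) (k : ℕ)
    (x : Fin n → ℂ), (((mt ρ τ₀).map e - 1) ^ k) *ᵥ x = 0 → (((mt ρ τ).map e - 1) ^ k) *ᵥ x = 0

theorem dom_of {ρ : GK K →* GL (Fin n) ℚ_[ℓ]} {τ₀ τ : GK K} {r k : ℕ} (hr : 0 < r)
    (hu : IsNilpotent (mt ρ τ - 1))
    (h : ∃ R, (mt ρ (τ ^ r) - 1) ^ k = R * (mt ρ τ₀ - 1) ^ k) (e : ℚ_[ℓ] →+* ℂ)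
    (x : Fin n → ℂ) (hx : (((mt ρ τ₀).map e - 1) ^ k) *ᵥ x = 0) :
    (((mt ρ τ).map e - 1) ^ k) *ᵥ x = 0 := by
  obtain ⟨R, hR⟩ := h
  refine WmvL.ker_of_pow (map_unip hu e) hr ?_
  have h5 := congrArg e.mapMatrix hR
  rw [map_mul, map_pow, map_pow, map_sub, map_sub, map_one, Pool.Agent.R401.Tr9.mt_pow, map_pow,
    RingHom.mapMatrix_apply, RingHom.mapMatrix_apply, RingHom.mapMatrix_apply] at h5
  rw [h5, ← Matrix.mulVec_mulVec, hx, Matrix.mulVec_zero]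

/-- a common generator -/
theorem gen2 (hMONO : S_MONO) (hGEN : Pool.Agent.Helper3K9.EW.S_GEN)
    (V : GK K →* GL (Fin n) ℚ_[ℓ]) (hV : Continuous V)
    (W : GK K →* GL (Fin m) ℚ_[ℓ]) (hW : Continuous W) (P : Ideal (OO K)) (hP : P.IsMaximal)
    (hℓ : (ℓ : OO K) ∉ P) (q : ℕ) (hq : 2 ≤ q) (σ : GK K) (hσ : FrobAt q P σ) :
    ∃ τ₀, InInertia P τ₀ ∧ IsGen V P τ₀ ∧ IsGen W P τ₀ := by
  set X := dsum V W with hX
  have hXc : Continuous X := continuous_dsum hV hW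
  obtain ⟨H, hHn, hHo, hH⟩ := hMONO K ℓ (n + m) X hXc P hP hℓ q σ hq hσ
  obtain ⟨τ₀, hI, hu, hrel, hmin⟩ := hGEN K ℓ (n + m) X hXc P hP hℓ q σ hq hσ
  have hfin : Finite (GK K ⧸ H) := Subgroup.quotient_finite_of_isOpen _ hHo
  have hfi : H.FiniteIndex := Subgroup.finiteIndex_of_finite_quotient
  have hr : 0 < H.index := Nat.pos_of_ne_zero hfi.index_ne_zero
  have hu' := (unip_dsum V W τ₀).1 hu
  have hrel' : ∀ (Q : ℕ) (g : GK K), 1 ≤ Q → FrobAt Q P g →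
      mt V (g * τ₀ * g⁻¹) = mt V τ₀ ^ Q ∧ mt W (g * τ₀ * g⁻¹) = mt W τ₀ ^ Q := by
    intro Q g hQ hg
    have h1 := hrel Q g hQ hg
    rw [hX, mt_dsum, mt_dsum, ← map_pow, fromBlocks_diagonal_pow] at h1
    have h2 := (Matrix.reindexAlgEquiv ℚ_[ℓ] ℚ_[ℓ]
      (finSumFinEquiv : Fin n ⊕ Fin m ≃ Fin (n + m))).injective h1
    have h3 := congrArg toBlocks₁₁ h2
    have h4 := congrArg toBlocks₂₂ h2
    rw [toBlocks_fromBlocks₁₁, toBlocks_fromBlocks₁₁] at h3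
    rw [toBlocks_fromBlocks₂₂, toBlocks_fromBlocks₂₂] at h4
    exact ⟨h3, h4⟩
  have hfac : ∀ τ, InInertia P τ → ∀ k,
      (∃ R, (mt V (τ ^ H.index) - 1) ^ k = R * (mt V τ₀ - 1) ^ k) ∧
      ∃ R, (mt W (τ ^ H.index) - 1) ^ k = R * (mt W τ₀ - 1) ^ k := by
    intro τ hτ k
    have h1 : InInertia P (τ ^ H.index) := (IG P).pow_mem (show τ ∈ IG P from hτ) _
    obtain ⟨R, hR⟩ := hmin _ h1 (hH _ (Subgroup.pow_index_mem H τ) h1) k
    exact fac_dsum V W _ _ k R hR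
  exact ⟨τ₀, hI, ⟨hu'.1, fun Q g hQ hg => (hrel' Q g hQ hg).1,
      fun τ hτ hτu e k x hx => dom_of hr hτu (hfac τ hτ k).1 e x hx⟩,
    ⟨hu'.2, fun Q g hQ hg => (hrel' Q g hQ hg).2,
      fun τ hτ hτu e k x hx => dom_of hr hτu (hfac τ hτ k).2 e x hx⟩⟩

/-- the monodromy-weight property at a generator -/
theorem mw_at (V : GK K →* GL (Fin n) ℚ_[ℓ]) (w : ℤ) (P : Ideal (OO K)) (q : ℕ) (hq : 2 ≤ q)
    (hVone : WMone V w P q) (τ₀ : GK K) (hgen : IsGen V P τ₀) (k : ℕ) (g : GK K) (hk : 0 < k)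
    (hg : FrobAt (q ^ k) P g) (e : ℚ_[ℓ] →+* ℂ)
    (hdet : ‖((mt V g⁻¹).map e).det‖ ^ 2 = ((q ^ k : ℕ) : ℝ) ^ (w * n)) :
    MWOp ((mt V g⁻¹).map e) (ulog ((mt V τ₀).map e)) (q ^ k) w ∧
      IsNilpotent (ulog ((mt V τ₀).map e)) ∧
      ulog ((mt V τ₀).map e) * (mt V g⁻¹).map e =
        ((q ^ k : ℕ) : ℂ) • ((mt V g⁻¹).map e * ulog ((mt V τ₀).map e)) := by
  have hqk : 2 ≤ q ^ k := le_trans hq (Nat.le_self_pow hk.ne' q)
  set T : Matrix (Fin n) (Fin n) ℚ_[ℓ] := mt V τ₀ with hT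
  let em : Matrix (Fin n) (Fin n) ℚ_[ℓ] →+* Matrix (Fin n) (Fin n) ℂ := e.mapMatrix
  have hone : mt V (1 : GK K) = 1 := Pool.Agent.R401.Tr9.mt_one V
  have hYY : mt V g * mt V g⁻¹ = 1 := by rw [← mt_mul, mul_inv_cancel, hone]
  have hYY' : mt V g⁻¹ * mt V g = 1 := by rw [← mt_mul, inv_mul_cancel, hone]
  have hrel' : mt V g * T * mt V g⁻¹ = T ^ (q ^ k) := by
    rw [hT, ← mt_mul, ← mt_mul]
    exact hgen.rel (q ^ k) g (by omega) hg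
  set Y := em (mt V g) with hY
  set A := em (mt V g⁻¹) with hA
  set Tc := em T with hTc
  have c1 : Y * A = 1 := by rw [hY, hA, ← map_mul, hYY, map_one]
  have c2 : A * Y = 1 := by rw [hY, hA, ← map_mul, hYY', map_one]
  have c3 : Y * Tc * A = Tc ^ (q ^ k) := by
    rw [hY, hA, hTc, ← map_mul, ← map_mul, hrel', map_pow]
  have c4 : IsNilpotent (Tc - 1) := map_unip hgen.unip e
  obtain ⟨u, u', hN, huu, huu', hcomm, hscale⟩ := ulog_spec Tc Y A (q ^ k) c4 c1 c2 c3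
  have hcomm1 : Commute (Tc - 1) u := hcomm.sub_left (Commute.one_left u)
  have hN' : ulog Tc = u * (Tc - 1) := by rw [hN]; exact hcomm1.eq
  have hNil : IsNilpotent (ulog Tc) := by
    rw [hN]
    exact hcomm1.isNilpotent_mul_right c4
  have hNA : ulog Tc * A = ((q ^ k : ℕ) : ℂ) • (A * ulog Tc) := by
    have h3 : A * (Y * ulog Tc * A) = ulog Tc * A := by
      rw [← mul_assoc, ← mul_assoc, c2, one_mul]
    rw [← h3, hscale, mul_smul_comm]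
  have hcu : Commute u u' := by
    show u * u' = u' * u
    rw [huu, huu']
  have hpowN : ∀ i : ℕ, (Tc - 1) ^ i = u' ^ i * ulog Tc ^ i := by
    intro i
    rw [hN', hcomm1.symm.mul_pow, ← mul_assoc, ← hcu.symm.mul_pow, huu', one_pow, one_mul]
  refine ⟨MWOp.of hqk hNil hNA ?_ hdet, hNil, hNA⟩
  intro z x i hx hAx hNx
  have hNx' : ulog Tc ^ (i + 1) *ᵥ x = 0 := hNx
  have h3 : (Tc - 1) ^ (i + 1) *ᵥ x = 0 := by
    rw [hpowN, ← Matrix.mulVec_mulVec, hNx', Matrix.mulVec_zero]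
  obtain ⟨j, hj, hz⟩ := hVone e k g hk hg z x i hx hAx
    (fun τ hτ hτu => hgen.dom τ hτ hτu e (i + 1) x h3)
  refine ⟨j, hj, ?_⟩
  rw [hz]
  push_cast
  rfl

end Pool.Agent.Helper8K9.WM
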