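import Pool.Agent.Helper8K9.WM.Pair
import Pool.Agent.H16R2.RankAmp2
import Pool.Agent.Y447.CL.Small

/-!
# The ranks of the powers of the monodromy operator
-/

set_option autoImplicit false

namespace Pool.Agent.Helper8K9.WM

open NumberField Filter Topology IsDedekindDomain Matrix Polynomial Module
open Pool.Agent.W569.FM Pool.Agent.W401.Cheb Pool.Agent.R401.Img Pool.Agent.R401.Sup3
open Pool.Agent.R401.Tr5
open Pool.Agent.Helper3K9.EW

namespace MWOp

variable {n : ℕ} {A N : Matrix (Fin n) (Fin n) ℂ} {Q : ℕ} {w : ℤ}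

open Classical in
/-- the part of the kernel of `N ^ i` in a generalized eigenspace -/
theorem ker_part (h2 : 2 ≤ Q) (h : MWOp A N Q w) (hc : N * A = (Q : ℂ) • (A * N)) (i : ℕ) (z : ℂ) :
    finrank ℂ (LinearMap.ker (toLin' (N ^ i)) ⊓ geig A z : Submodule ℂ (Fin n → ℂ)) +
      (if ‖z / (Q : ℂ) ^ i‖ ^ 2 < (Q : ℝ) ^ (w - i) then
        A.charpoly.roots.count (z / (Q : ℂ) ^ i) else 0) =
      if ‖z‖ ^ 2 < (Q : ℝ) ^ (w + i) then A.charpoly.roots.count z else 0 := by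
  have hQr := LinL.Qr Q h2
  have hQc : (Q : ℂ) ≠ 0 := by
    have : Q ≠ 0 := by omega
    exact_mod_cast this
  have hQ1 : (1 : ℝ) < Q := by
    have : 1 < Q := by omega
    exact_mod_cast this
  have hiff : ‖z / (Q : ℂ) ^ i‖ ^ 2 < (Q : ℝ) ^ (w - i) ↔ ‖z‖ ^ 2 < (Q : ℝ) ^ (w + i) := by
    rw [norm_div, div_pow, norm_pow, Complex.norm_natCast, div_lt_iff₀ (by positivity)]
    have e : (Q : ℝ) ^ (w - i) * ((Q : ℝ) ^ i) ^ 2 = (Q : ℝ) ^ (w + i) := by
      rw [← pow_mul, ← zpow_natCast, ← zpow_add₀ hQr.ne']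
      congr 1
      push_cast
      ring
    rw [e]
  have hle : finrank ℂ (LinearMap.ker (toLin' (N ^ i)) ⊓ geig A z : Submodule ℂ (Fin n → ℂ)) ≤
      A.charpoly.roots.count z := by
    rw [← finrank_geig]
    exact Submodule.finrank_mono inf_le_right
  by_cases hz : ∃ j : ℤ, ‖z‖ ^ 2 = (Q : ℝ) ^ j
  swap
  · have h1 : A.charpoly.roots.count z = 0 := by
      rw [Multiset.count_eq_zero]
      intro hm
      exact hz (h.wt z (Polynomial.isRoot_of_mem_roots hm))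
    have h3 : A.charpoly.roots.count (z / (Q : ℂ) ^ i) = 0 := by
      rw [Multiset.count_eq_zero]
      intro hm
      obtain ⟨j, hj⟩ := h.wt _ (Polynomial.isRoot_of_mem_roots hm)
      apply hz
      refine ⟨j + 2 * i, ?_⟩
      have h4 := LinL.norm_zp Q h2 (z / (Q : ℂ) ^ i) j i hj
      rwa [zpow_natCast, div_mul_cancel₀ _ (pow_ne_zero _ hQc)] at h4
    rw [h1, h3, ite_self, ite_self, add_zero]
    omega
  obtain ⟨j, hj⟩ := hz
  have hjw : ‖z‖ ^ 2 < (Q : ℝ) ^ (w + i) ↔ j < w + i := by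
    rw [hj]
    exact zpow_lt_zpow_iff_right₀ hQ1
  by_cases hlt : j < w + i
  · rw [if_pos (hiff.2 (hjw.2 hlt)), if_pos (hjw.2 hlt), ← finrank_geig, ← finrank_geig]
    obtain ⟨s, hs⟩ : ∃ s : ℕ, w - j + 2 * i = s := ⟨(w - j + 2 * i).toNat, by omega⟩
    have hsi : i ≤ s := by omega
    set z'' : ℂ := z / (Q : ℂ) ^ i * (Q : ℂ) ^ s with hz''
    have hz2 : ‖z''‖ ^ 2 = (Q : ℝ) ^ (w + s) := by
      have h4 : z'' = z * (Q : ℂ) ^ ((s : ℤ) - i) := by
        rw [hz'', zpow_sub₀ hQc, zpow_natCast, zpow_natCast]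
        ring
      rw [h4, LinL.norm_zp Q h2 z j _ hj]
      congr 1
      omega
    have hb := h.bij z'' s hz2
    have hzs : z'' / (Q : ℂ) ^ s = z / (Q : ℂ) ^ i := by
      rw [hz'', mul_div_assoc, div_self (pow_ne_zero _ hQc), mul_one]
    rw [hzs] at hb
    have hc' : (toLin' N : Module.End ℂ (Fin n → ℂ)) * toLin' A =
        (Q : ℂ) • (toLin' A * toLin' N) := by
      rw [Module.End.mul_eq_comp, Module.End.mul_eq_comp, ← Matrix.toLin'_mul, hc, map_smul,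
        Matrix.toLin'_mul]
    have hmap : ∀ (t : ℕ) (y y' : ℂ), y' * (Q : ℂ) ^ t = y → ∀ x ∈ geig A y,
        N ^ t *ᵥ x ∈ geig A y' := by
      intro t y y' hyy x hx
      have h5 := LinL.map_gen (toLin' A) (toLin' N) Q hQc hc' t y y' hyy x hx
      rwa [← Matrix.toLin'_pow, Matrix.toLin'_apply] at h5
    refine (LinL.rank_null (toLin' A) (toLin' (N ^ i)) z (z / (Q : ℂ) ^ i) ?_ ?_).symm
    · intro x hx
      rw [Matrix.toLin'_apply]
      exact hmap i z _ (div_mul_cancel₀ _ (pow_ne_zero _ hQc)) x hx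
    · intro y hy
      obtain ⟨x, hx, hxy⟩ := hb.surjOn hy
      refine ⟨N ^ (s - i) *ᵥ x, hmap (s - i) z'' z ?_ x hx, ?_⟩
      · rw [hz'']
        have h6 : (Q : ℂ) ^ s = (Q : ℂ) ^ (s - i) * (Q : ℂ) ^ i := by
          rw [← pow_add, Nat.sub_add_cancel hsi]
        rw [h6]
        field_simp
      · rw [Matrix.toLin'_apply, Matrix.mulVec_mulVec, ← pow_add, Nat.add_sub_cancel' hsi]
        exact hxy
  · rw [if_neg (fun hx => hlt (hjw.1 (hiff.1 hx))), if_neg (fun hx => hlt (hjw.1 hx)), add_zero,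
      Submodule.finrank_eq_zero, Submodule.eq_bot_iff]
    rintro x ⟨hx1, hx2⟩
    obtain ⟨s, hs⟩ : ∃ s : ℕ, j = w + s := ⟨(j - w).toNat, by omega⟩
    have hb := h.bij z s (by rw [hj, hs])
    rw [SetLike.mem_coe, LinearMap.mem_ker, Matrix.toLin'_apply] at hx1
    have h3 : N ^ s *ᵥ x = 0 := by
      rw [show s = (s - i) + i by omega, pow_add, ← Matrix.mulVec_mulVec, hx1, Matrix.mulVec_zero]
    exact hb.injOn hx2 (Submodule.zero_mem _) (by
      show N ^ s *ᵥ x = N ^ s *ᵥ 0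
      rw [h3, Matrix.mulVec_zero])

open Classical in
/-- **The ranks of the powers of the monodromy operator are determined by the eigenvalues.** -/
theorem rank_pow (h2 : 2 ≤ Q) (h : MWOp A N Q w) (hc : N * A = (Q : ℂ) • (A * N)) (i : ℕ) :
    (N ^ i).rank = (A.charpoly.roots.filter fun z => ¬ ‖z‖ ^ 2 < (Q : ℝ) ^ (w + i)).card +
      (A.charpoly.roots.filter fun z => ‖z‖ ^ 2 < (Q : ℝ) ^ (w - i)).card := by
  have hQc : (Q : ℂ) ≠ 0 := by
    have : Q ≠ 0 := by omega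
    exact_mod_cast this
  set a : Module.End ℂ (Fin n → ℂ) := toLin' A with ha
  set ν : Module.End ℂ (Fin n → ℂ) := toLin' (N ^ i) with hν
  have hc' : (toLin' N : Module.End ℂ (Fin n → ℂ)) * toLin' A =
      (Q : ℂ) • (toLin' A * toLin' N) := by
    rw [Module.End.mul_eq_comp, Module.End.mul_eq_comp, ← Matrix.toLin'_mul, hc, map_smul,
      Matrix.toLin'_mul]
  have hK : ∀ x ∈ LinearMap.ker ν, a x ∈ LinearMap.ker ν := by
    intro x hx
    rw [LinearMap.mem_ker] at hx ⊢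
    have h1 := congrArg (fun f : Module.End ℂ (Fin n → ℂ) => f x)
      (LinL.comm_pow (toLin' A) (toLin' N) Q hc' i)
    simp only [Module.End.mul_apply, LinearMap.smul_apply] at h1
    rw [← Matrix.toLin'_pow] at h1
    rw [h1]
    show _ • a (ν x) = 0
    rw [hx, map_zero, smul_zero]
  set r := A.charpoly.roots with hr
  set mk := (a.restrict hK).charpoly.roots with hmk
  have hcard : r.card = n := by
    have := (IsAlgClosed.splits A.charpoly).natDegree_eq_card_roots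
    rw [hr, ← this, Matrix.charpoly_natDegree_eq_dim, Fintype.card_fin]
  have hmkc : mk.card = finrank ℂ (LinearMap.ker ν) := by
    rw [hmk, ← (IsAlgClosed.splits _).natDegree_eq_card_roots, LinearMap.charpoly_natDegree]
  have hrank : (N ^ i).rank + mk.card = n := by
    have h1 := LinearMap.finrank_range_add_finrank_ker ν
    rw [Module.finrank_fin_fun] at h1
    rw [hmkc]
    exact h1
  set S : Finset ℂ := r.toFinset ∪ r.toFinset.image (fun z => z * (Q : ℂ) ^ i) ∪ mk.toFinset with hS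
  have e1 : ∑ z ∈ S, mk.count z = mk.card := Multiset.sum_count_eq_card fun z hz =>
    Finset.mem_union_right _ (Multiset.mem_toFinset.mpr hz)
  have e2 : ∑ z ∈ S, (r.filter fun z => ‖z‖ ^ 2 < (Q : ℝ) ^ (w + i)).count z =
      (r.filter fun z => ‖z‖ ^ 2 < (Q : ℝ) ^ (w + i)).card := by
    refine Multiset.sum_count_eq_card fun z hz => ?_
    rw [Multiset.mem_filter] at hz
    exact Finset.mem_union_left _ (Finset.mem_union_left _ (Multiset.mem_toFinset.mpr hz.1))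
  have e3 : ∑ z ∈ S.image (fun z => z / (Q : ℂ) ^ i),
      (r.filter fun z => ‖z‖ ^ 2 < (Q : ℝ) ^ (w - i)).count z =
      (r.filter fun z => ‖z‖ ^ 2 < (Q : ℝ) ^ (w - i)).card := by
    refine Multiset.sum_count_eq_card fun z hz => ?_
    rw [Multiset.mem_filter] at hz
    refine Finset.mem_image.mpr ⟨z * (Q : ℂ) ^ i, ?_, mul_div_cancel_right₀ _ (pow_ne_zero _ hQc)⟩
    exact Finset.mem_union_left _ (Finset.mem_union_right _
      (Finset.mem_image_of_mem _ (Multiset.mem_toFinset.mpr hz.1)))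
  rw [Finset.sum_image (fun x _ y _ hxy => by
    have h := congrArg (fun t => t * (Q : ℂ) ^ i) hxy
    simpa only [div_mul_cancel₀ _ (pow_ne_zero _ hQc)] using h)] at e3
  have e4 : mk.card + (r.filter fun z => ‖z‖ ^ 2 < (Q : ℝ) ^ (w - i)).card =
      (r.filter fun z => ‖z‖ ^ 2 < (Q : ℝ) ^ (w + i)).card := by
    rw [← e1, ← e2, ← e3, ← Finset.sum_add_distrib]
    refine Finset.sum_congr rfl fun z _ => ?_
    rw [Multiset.count_filter, Multiset.count_filter, ← h.ker_part h2 hc i z, hmk,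
      ← LinL.finrank_gen, LinL.finrank_gen_restrict]
    rfl
  have e5 := congrArg Multiset.card (Multiset.filter_add_not (fun z => ‖z‖ ^ 2 < (Q : ℝ) ^ (w + i)) r)
  rw [Multiset.card_add, hcard] at e5
  omega

end MWOp

/-- the rank of a power depends only on the eigenvalues of a weight different from `w` -/
theorem rank_eq {n m : ℕ} {A N : Matrix (Fin n) (Fin n) ℂ} {A' N' : Matrix (Fin m) (Fin m) ℂ}
    {Q : ℕ} {w : ℤ} (h2 : 2 ≤ Q) (h : MWOp A N Q w) (hc : N * A = (Q : ℂ) • (A * N))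
    (h' : MWOp A' N' Q w) (hc' : N' * A' = (Q : ℂ) • (A' * N')) (D : ℂ) (m' n' : ℕ)
    (hD : ‖D‖ ^ 2 = (Q : ℝ) ^ w ∨ m' = n')
    (hr : A.charpoly.roots + Multiset.replicate m' D = A'.charpoly.roots + Multiset.replicate n' D)
    (i : ℕ) (hi : 0 < i) : (N ^ i).rank = (N' ^ i).rank := by
  classical
  rw [h.rank_pow h2 hc, h'.rank_pow h2 hc']
  rcases hD with hD | hD
  swap
  · subst hD
    rw [Multiset.add_left_inj] at hr
    rw [hr]
  have hQ1 : (1 : ℝ) < Q := by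
    have : 1 < Q := by omega
    exact_mod_cast this
  have h3 := congrArg (fun r => (r.filter fun z => ¬ ‖z‖ ^ 2 < (Q : ℝ) ^ (w + i)).card) hr
  have h4 := congrArg (fun r => (r.filter fun z => ‖z‖ ^ 2 < (Q : ℝ) ^ (w - i)).card) hr
  simp only [Multiset.filter_add, Multiset.card_add] at h3 h4
  have h5 : ∀ k, (Multiset.replicate k D).filter (fun z => ¬ ‖z‖ ^ 2 < (Q : ℝ) ^ (w + i)) = 0 := by
    intro k
    rw [Multiset.filter_eq_nil]
    intro z hz
    rw [Multiset.eq_of_mem_replicate hz, not_not, hD]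
    exact zpow_lt_zpow_right₀ hQ1 (by omega)
  have h6 : ∀ k, (Multiset.replicate k D).filter (fun z => ‖z‖ ^ 2 < (Q : ℝ) ^ (w - i)) = 0 := by
    intro k
    rw [Multiset.filter_eq_nil]
    intro z hz
    rw [Multiset.eq_of_mem_replicate hz, not_lt, hD]
    exact zpow_le_zpow_right₀ hQ1.le (by omega)
  rw [h5, h5, Multiset.card_zero, add_zero, add_zero] at h3
  rw [h6, h6, Multiset.card_zero, add_zero, add_zero] at h4
  rw [h3, h4]

variable {K : Type} [Field K] [NumberField K] {ℓ : ℕ} [Fact ℓ.Prime] {n m : ℕ}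

/-- the eigenvalues of two close representations -/
theorem roots_rel (V : GK K →* GL (Fin n) ℚ_[ℓ]) (W : GK K →* GL (Fin m) ℚ_[ℓ]) (u : ℤ)
    (φ : GK K → ℚ)
    (hφ : ∀ y : GK K, cyc K ℓ ℚ_[ℓ] y ^ u * ((mt V y).trace - (mt W y).trace) = (φ y : ℚ_[ℓ]))
    {P : Ideal (OO K)} (hP : P.IsMaximal) (hℓP : (ℓ : OO K) ∉ P) {Q : ℕ} {g : GK K}
    (hg : FrobAt Q P g) (U : Subgroup (GK K)) (hU : ∀ x ∈ U, ∀ y, φ (x * y) = φ y)
    (hM : g⁻¹ ∈ U) (e : ℚ_[ℓ] →+* ℂ) :
    ((mt V g⁻¹).map e).charpoly.roots + Multiset.replicate m ((Q : ℂ) ^ u) =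
      ((mt W g⁻¹).map e).charpoly.roots + Multiset.replicate n ((Q : ℂ) ^ u) := by
  have hblock : ∀ (A : Matrix (Fin n) (Fin n) ℚ_[ℓ]) (B : Matrix (Fin m) (Fin m) ℚ_[ℓ]) (k : ℕ),
      ((fromBlocks A 0 0 B) ^ k).trace = (A ^ k).trace + (B ^ k).trace := by
    intro A B k
    rw [fromBlocks_diagonal_pow]
    simp [Matrix.trace, Fintype.sum_sum_type]
  have htr : ∀ k : ℕ, ((mt V g⁻¹) ^ k).trace - ((mt W g⁻¹) ^ k).trace =
      ((Q : ℚ_[ℓ]) ^ u) ^ k * (n - m) := by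
    intro k
    have h2 : g⁻¹ ^ k ∈ U := U.pow_mem hM k
    have h3 : φ (g⁻¹ ^ k) = φ 1 := by
      rw [← mul_one (g⁻¹ ^ k), hU _ h2]
    rw [ChpL.trace_pow V W u φ hφ hP hℓP hg, h3, Pool.Agent.R401.Tr9.phi_one V W u φ hφ]
    ring
  have h1 : (fromBlocks (mt V g⁻¹) 0 0
      (((Q : ℚ_[ℓ]) ^ u) • (1 : Matrix (Fin m) (Fin m) ℚ_[ℓ]))).charpoly =
      (fromBlocks (((Q : ℚ_[ℓ]) ^ u) • (1 : Matrix (Fin n) (Fin n) ℚ_[ℓ])) 0 0
        (mt W g⁻¹)).charpoly := by
    apply Pool.Agent.TH658.Eq.charpoly_eq_of_traces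
    intro k
    rw [hblock, hblock, _root_.smul_pow, _root_.smul_pow, one_pow, one_pow,
      Matrix.trace_smul, Matrix.trace_smul, Matrix.trace_one, Matrix.trace_one, Fintype.card_fin,
      Fintype.card_fin, smul_eq_mul, smul_eq_mul]
    linear_combination htr k
  have hsc : ∀ r : ℕ, (((Q : ℚ_[ℓ]) ^ u) • (1 : Matrix (Fin r) (Fin r) ℚ_[ℓ])).charpoly =
      (X - C ((Q : ℚ_[ℓ]) ^ u)) ^ r := by
    intro r
    rw [smul_one_eq_diagonal, charpoly_diagonal, Finset.prod_const, Finset.card_univ,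
      Fintype.card_fin]
  rw [charpoly_fromBlocks_zero₂₁, charpoly_fromBlocks_zero₂₁, hsc, hsc] at h1
  have h2 := congrArg (fun p => (p.map e).roots) h1
  simp only [Polynomial.map_mul, Polynomial.map_pow, Polynomial.map_sub, Polynomial.map_X,
    Polynomial.map_C, ← charpoly_map] at h2
  have hne : ∀ r : ℕ, (X - C (e ((Q : ℚ_[ℓ]) ^ u))) ^ r ≠ 0 := fun r =>
    pow_ne_zero _ (X_sub_C_ne_zero _)
  rw [roots_mul (mul_ne_zero (charpoly_monic _).ne_zero (hne m)),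
    roots_mul (mul_ne_zero (hne n) (charpoly_monic _).ne_zero), roots_pow, roots_pow,
    roots_X_sub_C, Multiset.nsmul_singleton, Multiset.nsmul_singleton, map_zpow₀, map_natCast,
    add_comm (Multiset.replicate n _)] at h2
  exact h2

/-- the rank of a power of a unipotent matrix minus one, and of the logarithm -/
theorem rank_ulog {T : Matrix (Fin n) (Fin n) ℚ_[ℓ]} (hT : IsNilpotent (T - 1)) (e : ℚ_[ℓ] →+* ℂ)
    (i : ℕ) : (ulog (T.map e) ^ i).rank = ((T - 1) ^ i).rank := by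
  obtain ⟨u, u', hN, huu, huu', hcomm⟩ := ulog_spec' _ (map_unip hT e)
  have hcomm1 : Commute (T.map e - 1) u := hcomm.sub_left (Commute.one_left u)
  rw [hN, hcomm1.mul_pow, ← Pool.Agent.H16R2.RankAmp.rank_map e]
  have h1 : ((T - 1) ^ i).map e = (T.map e - 1) ^ i := by
    have h2 : e.mapMatrix ((T - 1) ^ i) = (e.mapMatrix T - 1) ^ i := by
      rw [map_pow, map_sub, map_one]
    exact h2
  rw [h1]
  refine rank_mul_eq_left_of_isUnit_det _ _ ?_
  rw [det_pow]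
  refine IsUnit.pow _ ?_
  exact (isUnit_iff_isUnit_det _).1 (IsUnit.of_mul_eq_one _ huu)

/-- **Two close representations: the monodromy-weight property and the Jordan blocks.** -/
theorem pair (hE : S_EMB) (hMONO : S_MONO) (hGEN : Pool.Agent.Helper3K9.EW.S_GEN)
    (V : GK K →* GL (Fin n) ℚ_[ℓ]) (hV : Continuous V)
    (W : GK K →* GL (Fin m) ℚ_[ℓ]) (hW : Continuous W) (w : ℤ) (hcl : Close1 V W w)
    (hss : SS W) (P : Ideal (OO K)) (hP : P.IsMaximal) (hℓ : (ℓ : OO K) ∉ P) (q : ℕ)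
    (hq : 2 ≤ q) (σ : GK K) (hσ : FrobAt q P σ) (hMW : MW W w P q) :
    ∃ τ, InInertia P τ ∧ IsNilpotent (mt V τ - 1) ∧ IsNilpotent (mt W τ - 1) ∧
      (∀ (k : ℕ) (g : GK K), 0 < k → FrobAt (q ^ k) P g → ∀ e : ℚ_[ℓ] →+* ℂ,
        MWOp ((mt V g⁻¹).map e) (ulog ((mt V τ).map e)) (q ^ k) w ∧
        MWOp ((mt W g⁻¹).map e) (ulog ((mt W τ).map e)) (q ^ k) w) ∧
      ∀ i : ℕ, 0 < i → ((mt V τ - 1) ^ i).rank = ((mt W τ - 1) ^ i).rank := by
  have hWone : WMone W w P q := hMW.wmone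
  have hVone : WMone V w P q := wmv_one hE V W w hcl hss P hP hℓ q hq hWone
  obtain ⟨τ₁, -, -, hWop⟩ := hMW
  have hqk : ∀ k : ℕ, 0 < k → 2 ≤ q ^ k := fun k hk => le_trans hq (Nat.le_self_pow hk.ne' q)
  have hdW : ∀ (k : ℕ) (g : GK K), 0 < k → FrobAt (q ^ k) P g → ∀ e : ℚ_[ℓ] →+* ℂ,
      ‖((mt W g⁻¹).map e).det‖ ^ 2 = ((q ^ k : ℕ) : ℝ) ^ (w * m) :=
    fun k g hk hg e => (hWop k g hk hg e).det (hqk k hk)
  have hdV : ∀ (k : ℕ) (g : GK K), 0 < k → FrobAt (q ^ k) P g → ∀ e : ℚ_[ℓ] →+* ℂ,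
      ‖((mt V g⁻¹).map e).det‖ ^ 2 = ((q ^ k : ℕ) : ℝ) ^ (w * n) :=
    fun k g hk hg e => det_close V W w hcl P hP hℓ (hqk k hk) hg e (hdW k g hk hg e)
  obtain ⟨τ₀, hI, hgV, hgW⟩ := gen2 hMONO hGEN V hV W hW P hP hℓ q hq σ hσ
  refine ⟨τ₀, hI, hgV.unip, hgW.unip, ?_, ?_⟩
  · intro k g hk hg e
    exact ⟨(mw_at V w P q hq hVone τ₀ hgV k g hk hg e (hdV k g hk hg e)).1,
      (mw_at W w P q hq hWone τ₀ hgW k g hk hg e (hdW k g hk hg e)).1⟩
  · intro i hi
    obtain ⟨e⟩ := Pool.Agent.Y447.CL.emb ℓ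
    obtain ⟨u, φ, U, hw, hUn, hUo, hU, hφ⟩ := hcl
    have hfin : Finite (GK K ⧸ U) := Subgroup.quotient_finite_of_isOpen _ hUo
    have hfi : U.FiniteIndex := Subgroup.finiteIndex_of_finite_quotient
    have hM : 0 < U.index := Nat.pos_of_ne_zero hfi.index_ne_zero
    set g := σ ^ U.index with hg
    have hgF : FrobAt (q ^ U.index) P g := WmvL.frobAt_pow hσ _
    have hgU : g⁻¹ ∈ U := U.inv_mem (Subgroup.pow_index_mem U σ)
    have hroots := roots_rel V W u φ hφ hP hℓ hgF U hU hgU e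
    obtain ⟨v1, -, v3⟩ := mw_at V w P q hq hVone τ₀ hgV U.index g hM hgF e (hdV _ g hM hgF e)
    obtain ⟨w1, -, w3⟩ := mw_at W w P q hq hWone τ₀ hgW U.index g hM hgF e (hdW _ g hM hgF e)
    rw [← rank_ulog hgV.unip e, ← rank_ulog hgW.unip e]
    refine rank_eq (hqk _ hM) v1 v3 w1 w3 _ m n ?_ hroots i hi
    rcases hw with hw | hw
    · left
      rw [norm_zpow, Complex.norm_natCast, hw, ← zpow_natCast, ← _root_.zpow_mul, mul_comm]
      rfl
    · right
      have h4 := Pool.Agent.R401.Tr9.phi_one V W u φ hφ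
      rw [hw, Rat.cast_zero] at h4
      have h5 : (n : ℚ_[ℓ]) = m := sub_eq_zero.1 h4.symm
      exact_mod_cast h5.symm

end Pool.Agent.Helper8K9.WM
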